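import Pool.Agent.Helper227.TD.Push

set_option autoImplicit false

namespace Pool.Agent.Helper227

open Encodable MeasureTheory
open scoped ENNReal

theorem half_pow_eq (n : ℕ) : (1 / 2 : ℝ≥0∞) ^ n = ((1 : ℕ) : ℝ≥0∞) / 2 ^ n := by
  rw [one_div, ← ENNReal.inv_pow]; simp

section

variable {t p : (ℕ → Bool) → ℝ≥0∞} (ht : IsUnivE t) (hp : IsPTest p) {a : ℕ} {l : ℕ → ℕ}
  (hl1 : ∀ m, (2 : ℝ≥0∞) ^ a / 2 ^ (l m + 1) < mv t m)
  (hl2 : ∀ m, mv t m ≤ 2 ^ a / 2 ^ l m)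
  (hl3 : ∀ m j, (2 : ℝ≥0∞) ^ a / 2 ^ (j + 1) < mv t m → l m ≤ j)

include ht hp hl1 hl2 hl3

theorem exists_m (b d : ℕ) (hb : ∀ m, l m ≤ m + b) : ∃ m ≥ d,
    lam ({X | (2 : ℝ≥0∞) ^ (m - d) < p X} ∩ cyl (az (m + b - l m) (l (m + b - l m)))) <
      lam (cyl (az (m + b - l m) (l (m + b - l m)))) := by
  classical
  by_contra hc
  push Not at hc
  obtain ⟨e, he⟩ := push ht hl1 hl2 hl3 b
  obtain ⟨P, hP, eP⟩ := hp.1.s1
  let P1 : ℕ × ℕ → List Bool → Prop := fun y ζ => P (2 ^ (y.1 - d), 0) ζ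
  let P2 : ℕ × ℕ → List Bool → Prop := fun y ζ => ∃ j : ℕ, ζ = az (y.1 + b - y.2) j ∧
    ((2 ^ a : ℕ) : ℝ≥0∞) / 2 ^ (j + 1) < mv t (y.1 + b - y.2)
  have hP1 : S1 fun x : (ℕ × ℕ) × List Bool => P1 x.1 x.2 :=
    hP.comp (f := fun x : (ℕ × ℕ) × List Bool => ((2 ^ (x.1.1 - d), 0), x.2))
      (((primrec_pow.comp (Primrec.const 2) (Primrec.nat_sub.comp (Primrec.fst.comp Primrec.fst)
        (Primrec.const d))).pair (Primrec.const 0)).pair Primrec.snd)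
  have hP2 : S1 fun x : (ℕ × ℕ) × List Bool => P2 x.1 x.2 := by
    have e0 : Primrec fun z : ((ℕ × ℕ) × List Bool) × ℕ => z.1.1.1 + b - z.1.1.2 :=
      Primrec.nat_sub.comp (Primrec.nat_add.comp (Primrec.fst.comp (Primrec.fst.comp Primrec.fst))
        (Primrec.const b)) (Primrec.snd.comp (Primrec.fst.comp Primrec.fst))
    have e1 : PrimrecPred fun z : ((ℕ × ℕ) × List Bool) × ℕ => z.1.2 = az (z.1.1.1 + b - z.1.1.2) z.2 :=
      Primrec.eq.comp (Primrec.snd.comp Primrec.fst) (primrec_az.comp e0 Primrec.snd)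
    have e2 : S1 fun z : ((ℕ × ℕ) × List Bool) × ℕ =>
        ((2 ^ a : ℕ) : ℝ≥0∞) / 2 ^ (z.2 + 1) < mv t (z.1.1.1 + b - z.1.1.2) :=
      (s1_mv ht.1.1).comp (f := fun z : ((ℕ × ℕ) × List Bool) × ℕ =>
        (z.1.1.1 + b - z.1.1.2, 2 ^ a, z.2 + 1)) (e0.pair ((Primrec.const _).pair
          (Primrec.succ.comp Primrec.snd)))
    exact S1.ex ((S1.of_prim e1).and e2)
  have hS : ∀ y : ℕ × ℕ, {X : ℕ → Bool | ∃ s, (∃ j < (pre X s).length + 1, P1 y ((pre X s).take j)) ∧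
      (∃ j < (pre X s).length + 1, P2 y ((pre X s).take j))} =
      {X | (2 : ℝ≥0∞) ^ (y.1 - d) < p X} ∩ cyl (az (y.1 + b - y.2) (l (y.1 + b - y.2))) := by
    intro y
    rw [← inter_open (P1 y) (P2 y)]
    congr 1
    · ext X
      have := eP (2 ^ (y.1 - d)) 0 X
      simp only [pow_zero, div_one] at this
      push_cast at this
      exact this.symm
    · ext X
      simp only [Set.mem_ofPred_eq, P2]
      constructor
      · rintro ⟨s, j, h1, h2⟩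
        refine az_cyl (hl3 _ j (by push_cast at h2; exact h2)) ?_
        rw [← h1]; exact mem_cyl_pre _ _
      · intro hX
        exact ⟨_, _, mem_cyl_iff.1 hX, by push_cast; exact hl1 _⟩
  have hL : S1 fun y : ℕ × ℕ => (y.2 ≤ y.1 + b ∧ d ≤ y.1) ∧
      ((1 : ℕ) : ℝ≥0∞) / ((2 ^ (y.1 + b + e + 2) : ℕ) : ℝ≥0∞) < lam {X : ℕ → Bool | ∃ s,
        (∃ j < (pre X s).length + 1, P1 y ((pre X s).take j)) ∧
        (∃ j < (pre X s).length + 1, P2 y ((pre X s).take j))} := by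
    refine S1.and (S1.of_prim (PrimrecPred.and ?_ ?_)) ?_
    · exact Primrec.nat_le.comp Primrec.snd (Primrec.nat_add.comp Primrec.fst (Primrec.const b))
    · exact Primrec.nat_le.comp (Primrec.const d) Primrec.fst
    · exact s1_measure_gt (P := fun (y : ℕ × ℕ) (ζ : List Bool) =>
        (∃ j < ζ.length + 1, P1 y (ζ.take j)) ∧ (∃ j < ζ.length + 1, P2 y (ζ.take j)))
        (s1_inter hP1 hP2) (a := fun _ : ℕ × ℕ => 1) (b := fun y : ℕ × ℕ => 2 ^ (y.1 + b + e + 2))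
        (Primrec.const 1) (primrec_pow.comp (Primrec.const 2) (Primrec.nat_add.comp
          (Primrec.nat_add.comp (Primrec.nat_add.comp Primrec.fst (Primrec.const b))
            (Primrec.const e)) (Primrec.const 2))) (fun x => by positivity)
  refine berry ht hl2 (lv_inf ht hl1) (2 ^ (b + e + 2 + d)) _ hL ?_ d ?_
  · intro m F hF
    rcases F.eq_empty_or_nonempty with rfl | ⟨x0, hx0⟩
    · simp
    · have hdm : d ≤ m := (hF x0 hx0).1.2
      have h1 : ∑ x ∈ F, lam ({X | (2 : ℝ≥0∞) ^ (m - d) < p X} ∩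
          cyl (az (m + b - x) (l (m + b - x)))) ≤ ENNReal.ofReal (1 / 2 ^ (m - d)) := by
        rw [← measure_biUnion_finset]
        · refine le_trans (measure_mono ?_) (hp.2 (2 ^ (m - d)) (by positivity))
          intro X hX
          simp only [Set.mem_iUnion] at hX
          obtain ⟨x, hx, h2, h3⟩ := hX
          have h2 : (2 : ℝ≥0∞) ^ (m - d) < p X := h2
          change ENNReal.ofReal (2 ^ (m - d)) ≤ p X
          rw [ENNReal.ofReal_pow (by norm_num)]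
          simpa using h2.le
        · intro x hx y hy hxy
          rw [Function.onFun, Set.disjoint_left]
          rintro X ⟨_, h2⟩ ⟨_, h3⟩
          have h4 := zs_inj (az_cyl_zs _ _ h2) (az_cyl_zs _ _ h3)
          have h5 : x ≤ m + b := (hF x hx).1.1
          have h6 : y ≤ m + b := (hF y hy).1.1
          omega
        · intro x hx
          refine MeasurableSet.inter ?_ (measurableSet_cyl _)
          exact measurableSet_lt measurable_const hp.1.measurable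
      have h2 : ∑ x ∈ F, ((1 : ℕ) : ℝ≥0∞) / ((2 ^ (m + b + e + 2) : ℕ) : ℝ≥0∞) ≤
          ENNReal.ofReal (1 / 2 ^ (m - d)) := by
        refine le_trans (Finset.sum_le_sum fun x hx => ?_) h1
        have h3 := (hF x hx).2
        rw [hS (m, x)] at h3
        exact h3.le
      rw [Finset.sum_const, nsmul_eq_mul] at h2
      have h3 : ENNReal.ofReal (1 / 2 ^ (m - d)) = ((1 : ℕ) : ℝ≥0∞) / 2 ^ (m - d) := by
        rw [ENNReal.ofReal_div_of_pos (by positivity), ENNReal.ofReal_pow (by norm_num)]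
        simp
      have h4 : (F.card : ℝ≥0∞) * (((1 : ℕ) : ℝ≥0∞) / ((2 ^ (m + b + e + 2) : ℕ) : ℝ≥0∞)) =
          (F.card : ℝ≥0∞) / 2 ^ (m + b + e + 2) := by
        push_cast
        rw [← mul_div_assoc, mul_one]
      rw [h3, h4, dyadic_le_iff, one_mul] at h2
      have h5 : 2 ^ (m + b + e + 2) = 2 ^ (b + e + 2 + d) * 2 ^ (m - d) := by
        rw [← pow_add]; congr 1; omega
      rw [h5] at h2
      exact Nat.le_of_mul_le_mul_right h2 (by positivity)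
  · intro m hm
    refine ⟨⟨hb m, hm⟩, ?_⟩
    rw [hS (m, l m)]
    refine lt_of_lt_of_le ?_ (hc m hm)
    rw [lam_cyl, az_length, half_pow_eq]
    have h6 : ((1 : ℕ) : ℝ≥0∞) / ((2 ^ (m + b + e + 2) : ℕ) : ℝ≥0∞) =
        ((1 : ℕ) : ℝ≥0∞) / 2 ^ (m + b + e + 2) := by push_cast; rfl
    rw [h6, dyadic_lt_iff, one_mul, one_mul]
    refine Nat.pow_lt_pow_right (by norm_num) ?_
    have h7 := he m (hb m)
    have h8 := hb m
    omega

end

/-- The deficiency (logarithm to the base 2) given by a test. -/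
noncomputable def defi (t : (ℕ → Bool) → ℝ≥0∞) (X : ℕ → Bool) : ℝ := Real.logb 2 (t X).toReal

theorem defi_ge {t : (ℕ → Bool) → ℝ≥0∞} {X Y : ℕ → Bool} {c : ℕ} (hX : t X ≠ ∞) (hY0 : t Y ≠ 0)
    (hY : t Y ≠ ∞) (h : (2 : ℝ≥0∞) ^ c * t Y ≤ t X) : defi t Y + c ≤ defi t X := by
  unfold defi
  have h1 : (2 : ℝ) ^ c * (t Y).toReal ≤ (t X).toReal := by
    have := ENNReal.toReal_mono hX h
    rwa [ENNReal.toReal_mul, ENNReal.toReal_pow, ENNReal.toReal_ofNat] at this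
  have h2 : 0 < (t Y).toReal := ENNReal.toReal_pos hY0 hY
  have h3 : Real.logb 2 ((2 : ℝ) ^ c * (t Y).toReal) = Real.logb 2 (t Y).toReal + c := by
    rw [Real.logb_mul (by positivity) h2.ne', ← Real.rpow_natCast, Real.logb_rpow (by norm_num)
      (by norm_num)]
    ring
  rw [← h3]
  exact Real.logb_le_logb_of_le (by norm_num) (by positivity) h1

theorem td_main {t p : (ℕ → Bool) → ℝ≥0∞} (ht : IsUnivE t) (hp : IsUnivP p) (c : ℕ) :
    ∃ X Y : ℕ → Bool, MLRandom X ∧ MLRandom Y ∧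
      (t X ≠ 0 ∧ t X ≠ ∞ ∧ t Y ≠ 0 ∧ t Y ≠ ∞ ∧ p X ≠ 0 ∧ p X ≠ ∞ ∧ p Y ≠ 0 ∧ p Y ≠ ∞) ∧
      defi t Y + c ≤ defi t X ∧ defi p X + c ≤ defi p Y := by
  obtain ⟨a, ha⟩ := exists_bound ht
  obtain ⟨l, hl1, hl2, hl3⟩ := exists_lv ht ha
  obtain ⟨e0, he0⟩ := mv_lower ht
  obtain ⟨C3, hC30, hC3⟩ := exists_C3 ht hl1 hl3
  obtain ⟨C1, hC10, hC1⟩ := exists_C1 hp
  obtain ⟨c3, hc3⟩ := ennreal_le_two_pow (x := ENNReal.ofReal C3) (by simp)
  obtain ⟨c1, hc1⟩ := ennreal_le_two_pow (x := ENNReal.ofReal C1) (by simp)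
  -- constants
  obtain ⟨b, hb⟩ : ∃ b, b = (c3 + a + 1 + c) + (a + e0) := ⟨_, rfl⟩
  obtain ⟨d, hd⟩ : ∃ d, d = c1 + c := ⟨_, rfl⟩
  have hlb : ∀ m, l m ≤ m + b := by
    intro m
    have h1 := (he0 m).trans (hl2 m)
    have h2 : ((1 : ℕ) : ℝ≥0∞) / 2 ^ (m + e0) ≤ ((2 ^ a : ℕ) : ℝ≥0∞) / 2 ^ l m := by
      push_cast; exact h1
    rw [dyadic_le_iff, one_mul, ← pow_add] at h2
    have h3 := (Nat.pow_le_pow_iff_right (by norm_num)).1 h2
    omega
  obtain ⟨m, hm, hlt⟩ := exists_m ht hp.1 hl1 hl2 hl3 b d hlb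
  obtain ⟨x, hx⟩ : ∃ x, x = m + b - l m := ⟨_, rfl⟩
  rw [← hx] at hlt
  -- the null sets
  have hae : ∀ᵐ X ∂lam, MLRandom X ∧ t X ≠ ∞ ∧ p X ≠ ∞ := by
    filter_upwards [ae_MLRandom, ht.1.ae_ne_top, hp.1.ae_ne_top] with X h1 h2 h3
    exact ⟨h1, h2, h3⟩
  -- the sequence in `A x`
  have hpos1 : 0 < lam (cyl (az x (l x)) \ {X | (2 : ℝ≥0∞) ^ (m - d) < p X}) := by
    have h1 := measure_inter_add_sdiff (μ := lam) (cyl (az x (l x)))
      (t := {X | (2 : ℝ≥0∞) ^ (m - d) < p X}) (measurableSet_lt measurable_const hp.1.1.measurable)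
    rw [Set.inter_comm] at h1
    by_contra h2
    have h3 : lam (cyl (az x (l x)) \ {X | (2 : ℝ≥0∞) ^ (m - d) < p X}) = 0 := by
      simpa using h2
    rw [h3, add_zero] at h1
    exact hlt.ne h1
  obtain ⟨X, hX, hXr, hXt, hXp⟩ := exists_mem_of_ae hpos1 hae
  -- the sequence in `[0^m 1]`
  have hpos2 : 0 < lam (cyl (zs m) \ {X | qv t m < t X}) := by
    have h1 := measure_inter_add_sdiff (μ := lam) (cyl (zs m))
      (t := {X | qv t m < t X}) (measurableSet_lt measurable_const ht.1.1.measurable)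
    rw [Set.inter_comm] at h1
    by_contra h2
    have h3 : lam (cyl (zs m) \ {X | qv t m < t X}) = 0 := by simpa using h2
    rw [h3, add_zero, lam_zs] at h1
    have h4 := lam_gt_qv (t := t) m
    rw [h1, half_pow_eq] at h4
    have h5 : (1 : ℝ≥0∞) / 2 ^ (m + 2) = ((1 : ℕ) : ℝ≥0∞) / 2 ^ (m + 2) := by simp
    rw [h5, dyadic_le_iff, one_mul, one_mul] at h4
    have h6 := (Nat.pow_le_pow_iff_right (by norm_num)).1 h4
    omega
  obtain ⟨Y, hY, hYr, hYt, hYp⟩ := exists_mem_of_ae hpos2 hae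
  -- inequalities
  have hX1 : (2 : ℝ≥0∞) ^ x ≤ 2 ^ c3 * t X := (hC3 x X hX.1).trans (mul_le_mul' hc3 le_rfl)
  have hX2 : p X ≤ 2 ^ (m - d) := not_lt.1 hX.2
  have hX3 : (2 : ℝ≥0∞) ^ x ≤ 2 ^ c1 * p X :=
    (hC1 x X (az_cyl_zs _ _ hX.1)).trans (mul_le_mul' hc1 le_rfl)
  have hY1 : (2 : ℝ≥0∞) ^ m ≤ 2 ^ c1 * p Y := (hC1 m Y hY.1).trans (mul_le_mul' hc1 le_rfl)
  have hY2 : t Y ≤ qv t m := not_lt.1 hY.2
  have hY3 : t Y ≤ 2 ^ (m + 1) * (2 ^ a / 2 ^ l m) := by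
    refine hY2.trans ?_
    have h1 := hl2 m
    unfold mv at h1
    rw [ENNReal.div_le_iff_le_mul (Or.inl (by positivity)) (Or.inl (by finiteness))] at h1
    rwa [mul_comm]
  have hpow0 : ∀ n : ℕ, (2 : ℝ≥0∞) ^ n ≠ 0 := fun n => by positivity
  have hpowt : ∀ n : ℕ, (2 : ℝ≥0∞) ^ n ≠ ∞ := fun n => by finiteness
  have hX0 : t X ≠ 0 := by
    intro h; rw [h, mul_zero] at hX1; exact hpow0 _ (le_antisymm hX1 zero_le)
  have hpX0 : p X ≠ 0 := by
    intro h; rw [h, mul_zero] at hX3; exact hpow0 _ (le_antisymm hX3 zero_le)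
  have hpY0 : p Y ≠ 0 := by
    intro h; rw [h, mul_zero] at hY1; exact hpow0 _ (le_antisymm hY1 zero_le)
  have hY0 : t Y ≠ 0 := by
    have h1 : IsETest fun _ => (1 : ℝ≥0∞) := by
      refine ⟨lowerSemi_of_s1 (E := fun x => x.2.1 = 1 ∧ x.2.2 = 0) (S1.of_prim
        (PrimrecPred.and (Primrec.eq.comp (Primrec.fst.comp Primrec.snd) (Primrec.const 1))
          (Primrec.eq.comp (Primrec.snd.comp Primrec.snd) (Primrec.const 0)))) fun X => ?_, ?_⟩
      · apply le_antisymm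
        · refine le_iSup_of_le 0 (le_iSup_of_le 1 (le_iSup_of_le 0 (le_iSup_of_le ⟨rfl, rfl⟩ ?_)))
          simp
        · refine iSup_le fun n => iSup_le fun p => iSup_le fun q => iSup_le ?_
          rintro ⟨h1, h2⟩
          simp only at h1 h2
          rw [h1, h2]
          simp
      · simp
    obtain ⟨C, hC⟩ := ht.2 _ h1
    intro h
    have h2 := hC Y
    rw [h, mul_zero] at h2
    simp at h2
  refine ⟨X, Y, hXr, hYr, ⟨hX0, hXt, hY0, hYt, hpX0, hXp, hpY0, hYp⟩, ?_, ?_⟩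
  · refine defi_ge hXt hY0 hYt ?_
    -- `2^c * t Y ≤ t X`
    have h1 : (2 : ℝ≥0∞) ^ c3 * (2 ^ c * t Y) ≤ 2 ^ c3 * t X := by
      refine le_trans ?_ hX1
      calc (2 : ℝ≥0∞) ^ c3 * (2 ^ c * t Y) ≤ 2 ^ c3 * (2 ^ c * (2 ^ (m + 1) * (2 ^ a / 2 ^ l m))) := by
            gcongr
        _ = 2 ^ (c3 + c + (m + 1) + a) / 2 ^ l m := by
            rw [← mul_assoc, ← mul_assoc, ← mul_div_assoc, ← pow_add, ← pow_add, ← pow_add]
        _ ≤ 2 ^ x := by
            refine ENNReal.div_le_of_le_mul ?_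
            rw [← pow_add]
            have := hlb m
            exact pow_le_pow_right₀ (by norm_num) (by omega)
    exact (ENNReal.mul_le_mul_iff_right (hpow0 _) (hpowt _)).1 h1
  · refine defi_ge hYp hpX0 hXp ?_
    have h1 : (2 : ℝ≥0∞) ^ c1 * (2 ^ c * p X) ≤ 2 ^ c1 * p Y := by
      refine le_trans ?_ hY1
      calc (2 : ℝ≥0∞) ^ c1 * (2 ^ c * p X) ≤ 2 ^ c1 * (2 ^ c * 2 ^ (m - d)) := by gcongr
        _ = 2 ^ m := by
            rw [← mul_assoc, ← pow_add, ← pow_add]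
            congr 1
            omega
    exact (ENNReal.mul_le_mul_iff_right (hpow0 _) (hpowt _)).1 h1

end Pool.Agent.Helper227
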