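import Pool.Agent.Helper227.TD.Trim
import Pool.Agent.Helper227.TD.Main

set_option autoImplicit false

namespace Pool.Agent.Helper227

open Encodable MeasureTheory
open scoped ENNReal

theorem measurable_stepf (G : List Bool → ℕ) (n : ℕ) : Measurable (stepf G n) := by
  refine Measurable.div_const ?_ _
  intro s _
  exact measurableSet_pre n (fun σ => (G σ : ℝ≥0∞) ∈ s)

theorem lam_pre_eq (n : ℕ) (P : List Bool → Prop) [DecidablePred P] :
    lam {X : ℕ → Bool | P (pre X n)} = (((allStr n).filter P).length : ℝ≥0∞) / 2 ^ n := by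
  classical
  have h := lam_finset ((allStr n).filter P).toFinset n (by
    intro σ hσ
    simp only [List.mem_toFinset, List.mem_filter, mem_allStr] at hσ
    exact hσ.1)
  rw [List.toFinset_card_of_nodup ((nodup_allStr n).filter _)] at h
  have e : {X : ℕ → Bool | pre X n ∈ ((allStr n).filter P).toFinset} =
      {X : ℕ → Bool | P (pre X n)} := by
    ext X
    simp [mem_allStr]
  rw [e] at h
  rw [h, one_div, ← ENNReal.inv_pow, div_eq_mul_inv]

theorem lintegral_pre (n : ℕ) (F : List Bool → ℝ≥0∞) :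
    ∫⁻ X, F (pre X n) ∂lam = ((allStr n).map F).sum / 2 ^ n := by
  classical
  have h1 : ∀ X : ℕ → Bool, F (pre X n) =
      ∑ σ ∈ (allStr n).toFinset, (cyl σ).indicator (fun _ => F σ) X := by
    intro X
    rw [Finset.sum_eq_single (pre X n)]
    · rw [Set.indicator_of_mem (mem_cyl_pre X n)]
    · intro σ hσ hne
      rw [Set.indicator_of_notMem]
      rw [mem_cyl_iff]
      simp only [List.mem_toFinset, mem_allStr] at hσ
      rw [hσ]
      exact fun h => hne h.symm
    · intro h
      exact absurd (by simp [mem_allStr]) h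
  simp only [h1]
  rw [lintegral_finsetSum _ (fun σ _ => measurable_const.indicator (measurableSet_cyl σ))]
  have h2 : ∀ σ ∈ (allStr n).toFinset, ∫⁻ X, (cyl σ).indicator (fun _ => F σ) X ∂lam =
      F σ / 2 ^ n := by
    intro σ hσ
    simp only [List.mem_toFinset, mem_allStr] at hσ
    rw [lintegral_indicator_const (measurableSet_cyl σ), lam_cyl, hσ, one_div, ← ENNReal.inv_pow,
      div_eq_mul_inv]
  rw [Finset.sum_congr rfl h2]
  simp only [div_eq_mul_inv]
  rw [← Finset.sum_mul]
  congr 1
  rw [List.sum_toFinset _ (nodup_allStr n)]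

/-- acceptance condition for expectation-bounded tests -/
def OkE (k j : ℕ) (L : List ℕ) : Prop := L.sum ≤ 2 ^ k * 4 ^ j

theorem okE_iff (k j : ℕ) (F : List Bool → ℕ) :
    OkE k j ((allStr j).map F) ↔ ∫⁻ X, stepf F j X ∂lam ≤ 2 ^ k := by
  have hL : ∀ L : List (List Bool), (L.map fun σ => (F σ : ℝ≥0∞) / 2 ^ j).sum =
      (((L.map F).sum : ℕ) : ℝ≥0∞) / 2 ^ j := by
    intro L
    induction L with
    | nil => simp
    | cons a L ih =>
      simp only [List.map_cons, List.sum_cons, ih]
      rw [← ENNReal.add_div]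
      push_cast
      rfl
  have h1 : ∫⁻ X, stepf F j X ∂lam =
      ((((allStr j).map F).sum : ℕ) : ℝ≥0∞) / 2 ^ (2 * j) := by
    unfold stepf
    rw [lintegral_pre j (fun σ => (F σ : ℝ≥0∞) / 2 ^ j), hL, two_mul, pow_add]
    rw [div_eq_mul_inv, div_eq_mul_inv, div_eq_mul_inv, mul_assoc,
      ← ENNReal.mul_inv (Or.inl (by positivity)) (Or.inl (by finiteness))]
  have h2 : (2 : ℝ≥0∞) ^ k = ((2 ^ k : ℕ) : ℝ≥0∞) / 2 ^ 0 := by simp
  rw [h1, h2, dyadic_le_iff, OkE, pow_zero, mul_one]
  have h3 : (4 : ℕ) ^ j = 2 ^ (2 * j) := by rw [pow_mul]; norm_num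
  rw [h3]

theorem primrec_list_sum : Primrec (List.sum : List ℕ → ℕ) := by
  have h : Primrec fun L : List ℕ => L.foldr (fun a b => a + b) 0 :=
    Primrec.list_foldr (h := fun (_ : List ℕ) (x : ℕ × ℕ) => x.1 + x.2) Primrec.id
      (Primrec.const 0) (Primrec.nat_add.comp (Primrec.fst.comp Primrec.snd)
        (Primrec.snd.comp Primrec.snd))
  exact h

theorem primrec_OkE : PrimrecPred fun x : ℕ × ℕ × List ℕ => OkE x.1 x.2.1 x.2.2 := by
  unfold OkE
  refine Primrec.nat_le.comp (primrec_list_sum.comp (Primrec.snd.comp Primrec.snd)) ?_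
  exact Primrec.nat_mul.comp (primrec_pow.comp (Primrec.const 2) Primrec.fst)
    (primrec_pow.comp (Primrec.const 4) (Primrec.fst.comp Primrec.snd))

/-- acceptance condition for probability-bounded tests -/
def OkP (_k j : ℕ) (L : List ℕ) : Prop := ∀ v ∈ L, (L.filter fun w => v ≤ w).length * v ≤ 4 ^ j

theorem primrec_OkP : PrimrecPred fun x : ℕ × ℕ × List ℕ => OkP x.1 x.2.1 x.2.2 := by
  unfold OkP
  refine PP.all_mem (α := ℕ × ℕ × List ℕ) (f := fun x => x.2.2)
    (p := fun x v => (x.2.2.filter fun w => v ≤ w).length * v ≤ 4 ^ x.2.1) ?_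
    (Primrec.snd.comp Primrec.snd)
  have h1 : PrimrecRel fun (w : ℕ) (z : (ℕ × ℕ × List ℕ) × ℕ) => z.2 ≤ w :=
    Primrec.nat_le.comp (Primrec.snd.comp Primrec.snd) Primrec.fst
  have h2 : Primrec fun z : (ℕ × ℕ × List ℕ) × ℕ => z.1.2.2.filter fun w => z.2 ≤ w :=
    (h1.listFilter).comp (Primrec.snd.comp (Primrec.snd.comp Primrec.fst)) Primrec.id
  refine Primrec.nat_le.comp (Primrec.nat_mul.comp (Primrec.list_length.comp h2) Primrec.snd) ?_
  exact primrec_pow.comp (Primrec.const 4) (Primrec.fst.comp (Primrec.snd.comp Primrec.fst))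

/-- The defining inequality of probability-bounded tests. -/
def PBd (f : (ℕ → Bool) → ℝ≥0∞) : Prop :=
  ∀ c : ℝ, 0 < c → lam {X | ENNReal.ofReal c ≤ f X} ≤ ENNReal.ofReal (1 / c)

theorem okP_iff (k j : ℕ) (F : List Bool → ℕ) :
    OkP k j ((allStr j).map F) ↔ PBd (stepf F j) := by
  classical
  have hlen : ∀ v : ℕ, (((allStr j).map F).filter fun w => v ≤ w).length =
      ((allStr j).filter fun σ => v ≤ F σ).length := by
    intro v
    rw [List.filter_map, List.length_map]
    rfl
  have hm : ∀ v : ℕ, lam {X : ℕ → Bool | v ≤ F (pre X j)} =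
      (((((allStr j).map F).filter fun w => v ≤ w).length : ℕ) : ℝ≥0∞) / 2 ^ j := by
    intro v
    rw [hlen, lam_pre_eq j (fun σ => v ≤ F σ)]
  constructor
  · intro h c hc
    by_cases hne : ∃ X : ℕ → Bool, ENNReal.ofReal c ≤ stepf F j X
    · -- the least value that is large enough
      obtain ⟨v, ⟨⟨X, hX⟩, hv2⟩, hv3⟩ : ∃ v : ℕ, ((∃ X : ℕ → Bool, F (pre X j) = v) ∧
          ENNReal.ofReal c ≤ (v : ℝ≥0∞) / 2 ^ j) ∧ ∀ w < v, ¬ ((∃ X : ℕ → Bool, F (pre X j) = w) ∧
          ENNReal.ofReal c ≤ (w : ℝ≥0∞) / 2 ^ j) := by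
        obtain ⟨X, hX⟩ := hne
        have h1 : ∃ v : ℕ, (∃ X : ℕ → Bool, F (pre X j) = v) ∧
            ENNReal.ofReal c ≤ (v : ℝ≥0∞) / 2 ^ j := ⟨F (pre X j), ⟨X, rfl⟩, hX⟩
        exact ⟨Nat.find h1, Nat.find_spec h1, fun w hw => Nat.find_min h1 hw⟩
      have h1 := h v (List.mem_map.2 ⟨pre X j, mem_allStr.2 (by simp), hX⟩)
      have h2 : {X | ENNReal.ofReal c ≤ stepf F j X} ⊆ {X : ℕ → Bool | v ≤ F (pre X j)} := by
        intro Y hY
        by_contra hlt
        exact hv3 _ (not_le.1 hlt) ⟨⟨Y, rfl⟩, hY⟩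
      refine (measure_mono h2).trans ?_
      rw [hm]
      have hv0 : (v : ℝ≥0∞) ≠ 0 := by
        intro h0
        rw [h0] at hv2
        simp at hv2
        linarith
      -- `# / 2^j ≤ 2^j / v ≤ 1 / c`
      have h3 : ((((allStr j).map F).filter fun w => v ≤ w).length : ℝ≥0∞) / 2 ^ j ≤
          2 ^ j / (v : ℝ≥0∞) := by
        rw [ENNReal.div_le_iff (by positivity) (by finiteness), ← ENNReal.mul_div_right_comm,
          ENNReal.le_div_iff_mul_le (Or.inl hv0) (Or.inl (by finiteness)), ← pow_add]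
        have h4 : (4 : ℕ) ^ j = 2 ^ (j + j) := by rw [← two_mul, pow_mul]; norm_num
        rw [h4] at h1
        exact_mod_cast h1
      refine h3.trans ?_
      rw [one_div, ENNReal.ofReal_inv_of_pos hc]
      rw [ENNReal.le_inv_iff_mul_le]
      calc 2 ^ j / (v : ℝ≥0∞) * ENNReal.ofReal c ≤ 2 ^ j / (v : ℝ≥0∞) * ((v : ℝ≥0∞) / 2 ^ j) := by
            gcongr
        _ ≤ 1 := by
            rw [← mul_div_assoc, ENNReal.div_mul_cancel hv0 (by finiteness)]
            exact ENNReal.div_self_le_one
    · have h1 : {X | ENNReal.ofReal c ≤ stepf F j X} = ∅ := by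
        ext X
        simp only [Set.mem_ofPred_eq, Set.mem_empty_iff_false, iff_false]
        exact fun h => hne ⟨X, h⟩
      rw [h1]
      simp
  · intro h v hv
    rcases Nat.eq_zero_or_pos v with rfl | hv0
    · simp
    · have h1 := h ((v : ℝ) / 2 ^ j) (by positivity)
      have h2 : ENNReal.ofReal ((v : ℝ) / 2 ^ j) = (v : ℝ≥0∞) / 2 ^ j := by
        rw [ENNReal.ofReal_div_of_pos (by positivity), ENNReal.ofReal_natCast,
          ENNReal.ofReal_pow (by norm_num)]
        norm_num
      have h3 : {X | ENNReal.ofReal ((v : ℝ) / 2 ^ j) ≤ stepf F j X} =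
          {X : ℕ → Bool | v ≤ F (pre X j)} := by
        ext X
        simp only [Set.mem_ofPred_eq, stepf, h2]
        rw [dyadic_le_iff]
        exact ⟨fun h => Nat.le_of_mul_le_mul_right h (by positivity),
          fun h => Nat.mul_le_mul_right _ h⟩
      rw [h3, hm, one_div, inv_div, ENNReal.ofReal_div_of_pos (by positivity),
        ENNReal.ofReal_natCast, ENNReal.ofReal_pow (by norm_num)] at h1
      have hv1 : (v : ℝ≥0∞) ≠ 0 := by exact_mod_cast hv0.ne'
      rw [ENNReal.div_le_iff (by positivity) (by finiteness), ← ENNReal.mul_div_right_comm,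
        ENNReal.le_div_iff_mul_le (Or.inl hv1) (Or.inl (by finiteness))] at h1
      have h4 : (4 : ℕ) ^ j = 2 ^ j * 2 ^ j := by rw [← mul_pow]; norm_num
      rw [h4]
      norm_num at h1
      exact_mod_cast h1

theorem monotone_stepf {G : List Bool → ℕ}
    (hm : ∀ (σ : List Bool) (b : Bool), 2 * G σ ≤ G (σ ++ [b])) (X : ℕ → Bool) :
    Monotone fun n => stepf G n X := step_mono hm X

theorem OkE_Tr (e n : ℕ) : ∫⁻ X, stepf (Tr OkE e) n X ∂lam ≤ 2 ^ e.unpair.2 := by
  rcases Tr_cases (Ok := OkE) e n with h | ⟨J, hJ, h1, h2⟩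
  · simp only [stepf, h]
    simp
  · rw [okE_iff] at h1
    refine le_of_eq_of_le ?_ h1
    congr 1
    ext X
    unfold stepf
    rw [h2]
    apply le_antisymm
    · rw [dyadic_le_iff, mul_assoc, ← pow_add]
      have : n - J + J = n := by omega
      rw [this]
    · rw [dyadic_le_iff, mul_assoc, ← pow_add]
      have : n - J + J = n := by omega
      rw [this]

theorem OkP_Tr (e n : ℕ) : PBd (stepf (Tr OkP e) n) := by
  rcases Tr_cases (Ok := OkP) e n with h | ⟨J, hJ, h1, h2⟩
  · intro c hc
    have h1 : {X | ENNReal.ofReal c ≤ stepf (Tr OkP e) n X} = ∅ := by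
      ext X
      simp only [Set.mem_ofPred_eq, Set.mem_empty_iff_false, iff_false, stepf, h]
      simp [hc]
    rw [h1]
    simp
  · rw [okP_iff] at h1
    have h3 : stepf (Tr OkP e) n =
        stepf (Mv (cval (Denumerable.ofNat Nat.Partrec.Code e.unpair.1) n)) J := by
      ext X
      unfold stepf
      rw [h2]
      apply le_antisymm
      · rw [dyadic_le_iff, mul_assoc, ← pow_add]
        have : n - J + J = n := by omega
        rw [this]
      · rw [dyadic_le_iff, mul_assoc, ← pow_add]
        have : n - J + J = n := by omega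
        rw [this]
    rw [h3]
    exact h1

/-- numerator of the universal expectation-bounded test -/
noncomputable def numE (σ : List Bool) : ℕ :=
  ((List.range σ.length).map fun e => Tr OkE e σ * 2 ^ (2 * σ.length - (e + 1 + e.unpair.2))).sum

theorem primrec_numE : Primrec numE := by
  unfold numE
  refine primrec_list_sum.comp (Primrec.list_map (Primrec.list_range.comp Primrec.list_length) ?_)
  refine Primrec.nat_mul.comp ((primrec_Tr (Ok := OkE) primrec_OkE).comp
    (Primrec.snd.pair Primrec.fst)) ?_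
  exact primrec_pow.comp (Primrec.const 2) (Primrec.nat_sub.comp (Primrec.nat_mul.comp
    (Primrec.const 2) (Primrec.list_length.comp Primrec.fst)) (Primrec.nat_add.comp
      (Primrec.succ.comp Primrec.snd) (Primrec.snd.comp (Primrec.unpair.comp Primrec.snd))))

/-- stages of the universal expectation-bounded test -/
noncomputable def uE (n : ℕ) (X : ℕ → Bool) : ℝ≥0∞ :=
  ∑ e ∈ Finset.range n, stepf (Tr OkE e) n X / 2 ^ (e + 1 + e.unpair.2)

theorem uE_eq (n : ℕ) (X : ℕ → Bool) : uE n X = (numE (pre X n) : ℝ≥0∞) / 2 ^ (3 * n) := by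
  unfold uE numE
  rw [length_pre]
  have h1 : ∀ m ≤ n, ∑ e ∈ Finset.range m, stepf (Tr OkE e) n X / 2 ^ (e + 1 + e.unpair.2) =
      ((((List.range m).map fun e => Tr OkE e (pre X n) *
        2 ^ (2 * n - (e + 1 + e.unpair.2))).sum : ℕ) : ℝ≥0∞) / 2 ^ (3 * n) := by
    intro m
    induction m with
    | zero => simp
    | succ m ih =>
      intro hm
      rw [Finset.sum_range_succ, ih (by omega), List.range_succ, List.map_append, List.sum_append]
      simp only [List.map_cons, List.map_nil, List.sum_cons, List.sum_nil, add_zero]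
      rw [Nat.cast_add, ENNReal.add_div]
      congr 1
      have hle : m + 1 + m.unpair.2 ≤ 2 * n := by
        have := Nat.unpair_right_le m
        omega
      unfold stepf
      rw [div_eq_mul_inv, div_eq_mul_inv, mul_assoc,
        ← ENNReal.mul_inv (Or.inl (by positivity)) (Or.inl (by finiteness)), ← pow_add,
        ← div_eq_mul_inv]
      apply le_antisymm
      · rw [dyadic_le_iff]
        apply le_of_eq
        rw [mul_assoc, ← pow_add]
        congr 2
        omega
      · rw [dyadic_le_iff]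
        apply le_of_eq
        rw [mul_assoc, ← pow_add]
        congr 2
        omega
  exact h1 n le_rfl

/-- The universal expectation-bounded test. -/
noncomputable def tE (X : ℕ → Bool) : ℝ≥0∞ := ⨆ n, uE n X

theorem monotone_uE (X : ℕ → Bool) : Monotone fun n => uE n X := by
  refine monotone_nat_of_le_succ fun n => ?_
  unfold uE
  refine (Finset.sum_le_sum fun e _ => ?_).trans
    (Finset.sum_le_sum_of_subset (Finset.range_mono (Nat.le_succ n)))
  exact ENNReal.div_le_div_right (monotone_stepf (Tr_mono e) X (Nat.le_succ n)) _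

theorem isUnivE_tE : IsUnivE tE := by
  refine ⟨⟨?_, ?_⟩, ?_⟩
  · refine lowerSemi_of_s1 (E := fun x => x.2.1 = numE x.1 ∧ x.2.2 = 3 * x.1.length)
      (S1.of_prim (PrimrecPred.and ?_ ?_)) fun X => ?_
    · exact Primrec.eq.comp (Primrec.fst.comp Primrec.snd) (primrec_numE.comp Primrec.fst)
    · exact Primrec.eq.comp (Primrec.snd.comp Primrec.snd) (Primrec.nat_mul.comp (Primrec.const 3)
        (Primrec.list_length.comp Primrec.fst))
    · unfold tE
      apply le_antisymm
      · refine iSup_le fun n => ?_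
        refine le_iSup_of_le n (le_iSup_of_le (numE (pre X n)) (le_iSup_of_le (3 * n)
          (le_iSup_of_le ⟨rfl, by simp⟩ ?_)))
        rw [uE_eq]
      · refine iSup_le fun n => iSup_le fun p => iSup_le fun q => iSup_le ?_
        rintro ⟨h1, h2⟩
        simp only [length_pre] at h1 h2
        refine le_iSup_of_le n ?_
        rw [uE_eq, h1, h2]
  · have h1 : ∫⁻ X, tE X ∂lam ≤ 1 := by
      unfold tE
      rw [lintegral_iSup (fun n => ?_) (fun n m h X => monotone_uE X h)]
      · refine iSup_le fun n => ?_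
        unfold uE
        rw [lintegral_finsetSum _ (fun e _ => (measurable_stepf _ _).div_const _)]
        have h2 : ∀ e ∈ Finset.range n, ∫⁻ X, stepf (Tr OkE e) n X / 2 ^ (e + 1 + e.unpair.2) ∂lam ≤
            (1 / 2) ^ (e + 1) := by
          intro e _
          simp only [div_eq_mul_inv]
          rw [lintegral_mul_const _ (measurable_stepf _ _)]
          refine (mul_le_mul' (OkE_Tr e n) le_rfl).trans ?_
          rw [← div_eq_mul_inv]
          refine ENNReal.div_le_of_le_mul ?_
          rw [pow_add 2 (e + 1), ← mul_assoc, ← mul_pow]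
          rw [one_mul, ENNReal.inv_mul_cancel (by norm_num) (by norm_num), one_pow, one_mul]
        refine (Finset.sum_le_sum h2).trans ?_
        refine (ENNReal.sum_le_tsum _).trans ?_
        rw [ENNReal.tsum_geometric_add_one]
        simp
      · unfold uE
        exact Finset.measurable_sum _ fun e _ => (measurable_stepf _ _).div_const _
    exact lt_of_le_of_lt h1 (by norm_num)
  · intro f hf
    obtain ⟨⟨G, hG, hm, he⟩, hfin⟩ := hf
    obtain ⟨k, hk⟩ := ennreal_le_two_pow hfin.ne
    obtain ⟨e, hek, hTr⟩ := exists_Tr (Ok := OkE) hG hm k (by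
      intro i
      rw [okE_iff]
      refine (lintegral_mono fun X => ?_).trans hk
      rw [he]
      exact le_iSup (fun n => (G ((List.range n).map X) : ℝ≥0∞) / 2 ^ n) i)
    refine ⟨2 ^ (e + 1 + k), fun X => ?_⟩
    rw [ENNReal.ofReal_pow (by norm_num), ENNReal.ofReal_ofNat]
    have h1 : f X = ⨆ n, stepf (Tr OkE e) n X := by
      rw [hTr, he]
      rfl
    rw [h1]
    refine iSup_le fun n => ?_
    have h2 : stepf (Tr OkE e) (n + e + 1) X / 2 ^ (e + 1 + k) ≤ tE X := by
      refine le_trans ?_ (le_iSup (fun n => uE n X) (n + e + 1))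
      unfold uE
      rw [← hek]
      exact Finset.single_le_sum (f := fun e => stepf (Tr OkE e) (n + _ + 1) X /
        2 ^ (e + 1 + e.unpair.2)) (fun _ _ => zero_le) (Finset.mem_range.2 (by omega))
    refine (monotone_stepf (Tr_mono e) X (show n ≤ n + e + 1 by omega)).trans ?_
    rw [ENNReal.div_le_iff_le_mul (Or.inl (by positivity)) (Or.inl (by finiteness))] at h2
    rwa [mul_comm]

/-- The universal probability-bounded test. -/
noncomputable def tP (X : ℕ → Bool) : ℝ≥0∞ :=
  ⨆ (n : ℕ) (e : ℕ), (Tr OkP e (pre X n) : ℝ≥0∞) / 2 ^ (n + e + 1)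

theorem isUnivP_tP : IsUnivP tP := by
  refine ⟨⟨?_, ?_⟩, ?_⟩
  · refine lowerSemi_of_s1 (E := fun x => ∃ e : ℕ, x.2.1 = Tr OkP e x.1 ∧
      x.2.2 = x.1.length + e + 1) (S1.ex (S1.of_prim (PrimrecPred.and ?_ ?_))) fun X => ?_
    · exact Primrec.eq.comp (Primrec.fst.comp (Primrec.snd.comp Primrec.fst))
        ((primrec_Tr (Ok := OkP) primrec_OkP).comp (Primrec.snd.pair (Primrec.fst.comp Primrec.fst)))
    · exact Primrec.eq.comp (Primrec.snd.comp (Primrec.snd.comp Primrec.fst))
        (Primrec.succ.comp (Primrec.nat_add.comp (Primrec.list_length.comp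
          (Primrec.fst.comp Primrec.fst)) Primrec.snd))
    · unfold tP
      apply le_antisymm
      · refine iSup_le fun n => iSup_le fun e => ?_
        exact le_iSup_of_le n (le_iSup_of_le (Tr OkP e (pre X n)) (le_iSup_of_le (n + e + 1)
          (le_iSup_of_le ⟨e, rfl, by simp⟩ le_rfl)))
      · refine iSup_le fun n => iSup_le fun p => iSup_le fun q => iSup_le ?_
        rintro ⟨e, h1, h2⟩
        simp only [length_pre] at h1 h2
        refine le_iSup_of_le n (le_iSup_of_le e ?_)
        rw [h1, h2]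
  · -- the measure bound
    have key : ∀ c' : ℝ, 0 < c' → lam {X | ENNReal.ofReal c' < tP X} ≤ ENNReal.ofReal (1 / c') := by
      intro c' hc'
      have h1 : {X | ENNReal.ofReal c' < tP X} ⊆
          ⋃ e : ℕ, ⋃ n : ℕ, {X | ENNReal.ofReal (c' * 2 ^ (e + 1)) ≤ stepf (Tr OkP e) n X} := by
        intro X hX
        simp only [Set.mem_ofPred_eq, tP, lt_iSup_iff] at hX
        obtain ⟨n, e, h⟩ := hX
        simp only [Set.mem_iUnion]
        refine ⟨e, n, ?_⟩
        simp only [Set.mem_ofPred_eq]
        unfold stepf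
        rw [ENNReal.ofReal_mul hc'.le, ENNReal.ofReal_pow (by norm_num), ENNReal.ofReal_ofNat]
        rw [add_assoc, pow_add, ENNReal.lt_div_iff_mul_lt (Or.inl (by positivity))
          (Or.inl (by finiteness))] at h
        rw [ENNReal.le_div_iff_mul_le (Or.inl (by positivity)) (Or.inl (by finiteness))]
        refine le_trans (le_of_eq ?_) h.le
        ring
      refine (measure_mono h1).trans ((measure_iUnion_le _).trans ?_)
      have h2 : ∀ e : ℕ, lam (⋃ n : ℕ, {X | ENNReal.ofReal (c' * 2 ^ (e + 1)) ≤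
          stepf (Tr OkP e) n X}) ≤ ENNReal.ofReal (1 / c') * (1 / 2) ^ (e + 1) := by
        intro e
        rw [Monotone.measure_iUnion]
        · refine iSup_le fun n => ?_
          refine (OkP_Tr e n _ (by positivity)).trans ?_
          rw [one_div, mul_inv, ENNReal.ofReal_mul (by positivity), one_div]
          gcongr
          rw [ENNReal.ofReal_inv_of_pos (by positivity), ENNReal.ofReal_pow (by norm_num),
            ENNReal.ofReal_ofNat, one_div, ENNReal.inv_pow]
        · intro n m h X hX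
          rw [Set.mem_ofPred_eq] at hX ⊢
          exact le_trans hX (monotone_stepf (Tr_mono e) X h)
      refine (ENNReal.tsum_le_tsum h2).trans ?_
      rw [ENNReal.tsum_mul_left, ENNReal.tsum_geometric_add_one]
      have h3 : (1 / 2 : ℝ≥0∞) * (1 - 1 / 2)⁻¹ = 1 := by
        rw [one_div, ENNReal.one_sub_inv_two, inv_inv]
        exact ENNReal.inv_mul_cancel (by norm_num) (by norm_num)
      rw [h3, mul_one]
    intro c hc
    by_contra hlt
    rw [not_le] at hlt
    obtain ⟨x, hx⟩ : ∃ x, x = lam {X | ENNReal.ofReal c ≤ tP X} := ⟨_, rfl⟩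
    rw [← hx] at hlt
    have hxt : x ≠ ∞ := by rw [hx]; exact measure_ne_top _ _
    have h1 : 1 / c < x.toReal := by
      have := (ENNReal.ofReal_lt_iff_lt_toReal (by positivity) hxt).1 hlt
      exact this
    have hx0 : 0 < x.toReal := lt_trans (by positivity) h1
    obtain ⟨c', h2, h3⟩ := exists_between (show 1 / x.toReal < c by
      rw [div_lt_iff₀ hx0]
      rw [div_lt_iff₀ hc] at h1
      linarith)
    have hc' : 0 < c' := lt_trans (by positivity) h2
    have h4 : x ≤ ENNReal.ofReal (1 / c') := by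
      rw [hx]
      refine (measure_mono fun X hX => ?_).trans (key c' hc')
      exact lt_of_lt_of_le ((ENNReal.ofReal_lt_ofReal_iff hc).2 h3) hX
    have h5 : x.toReal ≤ 1 / c' := ENNReal.toReal_le_of_le_ofReal (by positivity) h4
    rw [div_lt_iff₀ hx0] at h2
    rw [le_div_iff₀ hc'] at h5
    linarith
  · intro f hf
    obtain ⟨⟨G, hG, hm, he⟩, hb⟩ := hf
    obtain ⟨e, -, hTr⟩ := exists_Tr (Ok := OkP) hG hm 0 (by
      intro i
      rw [okP_iff]
      intro c hc
      refine (measure_mono fun X hX => ?_).trans (hb c hc)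
      rw [Set.mem_ofPred_eq] at hX ⊢
      refine le_trans hX ?_
      rw [he]
      exact le_iSup (fun n => (G ((List.range n).map X) : ℝ≥0∞) / 2 ^ n) i)
    refine ⟨2 ^ (e + 1), fun X => ?_⟩
    rw [ENNReal.ofReal_pow (by norm_num), ENNReal.ofReal_ofNat]
    have h1 : f X = ⨆ n, stepf (Tr OkP e) n X := by
      rw [hTr, he]
      rfl
    rw [h1]
    refine iSup_le fun n => ?_
    have h2 : (Tr OkP e (pre X n) : ℝ≥0∞) / 2 ^ (n + e + 1) ≤ tP X :=
      le_iSup_of_le n (le_iSup_of_le e le_rfl)
    unfold stepf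
    rw [ENNReal.div_le_iff_le_mul (Or.inl (by positivity)) (Or.inl (by finiteness))] at h2 ⊢
    refine h2.trans (le_of_eq ?_)
    ring

end Pool.Agent.Helper227
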