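import Pool.Agent.Helper227.TD.Berry
import Pool.Agent.Helper227.Univ

set_option autoImplicit false

namespace Pool.Agent.Helper227

open Encodable MeasureTheory
open scoped ENNReal

theorem MLRandom.of_MLR {A X : ℕ → Bool} (h : MLR A X) : MLRandom X := by
  intro W hW hm
  by_contra hc
  push Not at hc
  refine h (fun n => ⋃ σ ∈ {σ : List Bool | (n, σ) ∈ W}, cyl σ) ⟨?_, hm⟩ ?_
  · refine ⟨{k | ∃ n σ, k = Nat.pair n (encode σ) ∧ (n, σ) ∈ W}, ?_, fun n => ?_⟩
    · rw [ceIn_iff]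
      refine ⟨fun x => ∃ n : ℕ, ∃ σ : List Bool, x.2 = Nat.pair n (encode σ) ∧ (n, σ) ∈ W, ?_,
        fun _ _ _ _ h => h, fun n => by simp⟩
      have h1 : S1 fun x : ℕ × List Bool => x ∈ W := S1.of_re hW
      refine S1.ex (S1.ex (S1.and (S1.of_prim ?_) (h1.comp ?_)))
      · exact Primrec.eq.comp (Primrec.snd.comp (Primrec.fst.comp Primrec.fst))
          (Primrec₂.natPair.comp (Primrec.snd.comp Primrec.fst) (Primrec.encode.comp Primrec.snd))
      · exact (Primrec.snd.comp Primrec.fst).pair Primrec.snd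
    · change (⋃ σ ∈ {σ : List Bool | (n, σ) ∈ W}, cyl σ) = _
      ext X
      simp only [Set.mem_iUnion, Set.mem_ofPred_eq, exists_prop]
      refine exists_congr fun σ => ?_
      constructor
      · rintro ⟨h1, h2⟩
        exact ⟨⟨n, σ, rfl, h1⟩, h2⟩
      · rintro ⟨⟨m, ρ, h3, h1⟩, h2⟩
        rw [Nat.pair_eq_pair] at h3
        obtain ⟨rfl, h4⟩ := h3
        rw [encode_injective h4]
        exact ⟨h1, by rwa [encode_injective h4] at h2⟩
  · rw [Set.mem_iInter]
    intro n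
    obtain ⟨σ, h1, h2⟩ := hc n
    simp only [Set.mem_iUnion]
    exact ⟨σ, h1, h2⟩

theorem ae_MLRandom : ∀ᵐ X ∂lam, MLRandom X := by
  obtain ⟨E, hE, mE, h1, h2⟩ := exists_universal
  have h3 : lam (⋂ n, UE E (fun _ => false) n) = 0 := by
    refine le_antisymm ?_ (zero_le)
    refine ge_of_tendsto' (ENNReal.tendsto_pow_atTop_nhds_zero_of_lt_one (r := 1 / 2)
      (by simp)) fun n => ?_
    exact (measure_mono (Set.iInter_subset _ n)).trans (h1 _ n)
  rw [ae_iff]
  refine measure_mono_null (fun X hX => ?_) h3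
  rw [Set.mem_iInter]
  intro n
  by_contra hn
  exact hX (MLRandom.of_MLR ((h2 (fun _ => false) X).2 ⟨n, hn⟩))

theorem IsPTest.ae_ne_top {p : (ℕ → Bool) → ℝ≥0∞} (hp : IsPTest p) : ∀ᵐ X ∂lam, p X ≠ ∞ := by
  rw [ae_iff]
  refine le_antisymm ?_ (zero_le)
  refine ENNReal.le_of_forall_pos_le_add fun ε hε _ => ?_
  rw [zero_add]
  have h1 := hp.2 (1 / ε) (by positivity)
  rw [one_div_one_div] at h1
  refine (measure_mono fun X hX => ?_).trans (h1.trans ?_)
  · simp only [Set.mem_ofPred_eq, not_not, ne_eq] at hX ⊢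
    rw [hX]
    exact le_top
  · simp

theorem IsETest.ae_ne_top {t : (ℕ → Bool) → ℝ≥0∞} (ht : IsETest t) : ∀ᵐ X ∂lam, t X ≠ ∞ :=
  (ae_lt_top ht.1.measurable ht.2.ne).mono fun _ h => h.ne

/-- choosing a random point in a set of positive measure -/
theorem exists_mem_of_ae {S : Set (ℕ → Bool)} (hS : 0 < lam S) {Q : (ℕ → Bool) → Prop}
    (hQ : ∀ᵐ X ∂lam, Q X) : ∃ X ∈ S, Q X := by
  by_contra hc
  push Not at hc
  rw [ae_iff] at hQ
  exact hS.ne' (measure_mono_null (fun X hX => hc X hX) hQ)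

end Pool.Agent.Helper227
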