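import Pool.Agent.Helper227.TD.Mass

set_option autoImplicit false

namespace Pool.Agent.Helper227

open Encodable MeasureTheory
open scoped ENNReal

theorem exists_choice {R : ℕ → ℕ → Prop} (hR : S1 fun x : ℕ × ℕ => R x.1 x.2)
    (h : ∀ a, ∃ x, R a x) : ∃ f : ℕ → ℕ, Computable f ∧ ∀ a, R a (f a) := by
  classical
  obtain ⟨q, hq, hm, he⟩ := hR
  have h1 : PrimrecPred fun z : ℕ × ℕ => q (z.1, (Nat.unpair z.2).1) (Nat.unpair z.2).2 := by
    have e : Primrec fun z : ℕ × ℕ => Nat.unpair z.2 := Primrec.unpair.comp Primrec.snd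
    exact hq.comp (Primrec.fst.pair (Primrec.fst.comp e)) (Primrec.snd.comp e)
  have h2 : Partrec fun a : ℕ => Nat.rfind fun k => Part.some
      (decide (q (a, (Nat.unpair k).1) (Nat.unpair k).2)) := by
    refine Partrec.rfind ?_
    exact (h1.decide.to_comp).partrec
  have hdom : ∀ a : ℕ, (Nat.rfind fun k => Part.some
      (decide (q (a, (Nat.unpair k).1) (Nat.unpair k).2))).Dom := by
    intro a
    obtain ⟨x, hx⟩ := h a
    obtain ⟨n, hn⟩ := (he (a, x)).1 hx
    rw [Nat.rfind_dom]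
    refine ⟨Nat.pair x n, ?_, fun _ => by simp⟩
    simpa using hn
  refine ⟨fun a => (Nat.unpair ((Nat.rfind fun k => Part.some
      (decide (q (a, (Nat.unpair k).1) (Nat.unpair k).2))).get (hdom a))).1, ?_, fun a => ?_⟩
  · have h3 : Computable fun a => (Nat.rfind fun k => Part.some
      (decide (q (a, (Nat.unpair k).1) (Nat.unpair k).2))).get (hdom a) :=
      h2.of_eq fun a => (Part.some_get _).symm
    exact (Primrec.fst.comp Primrec.unpair).to_comp.comp h3
  · have h4 := Nat.rfind_spec (Part.get_mem (hdom a))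
    have h5 : q (a, (Nat.unpair ((Nat.rfind fun k => Part.some
      (decide (q (a, (Nat.unpair k).1) (Nat.unpair k).2))).get (hdom a))).1)
      (Nat.unpair ((Nat.rfind fun k => Part.some
      (decide (q (a, (Nat.unpair k).1) (Nat.unpair k).2))).get (hdom a))).2 := by
      simpa using h4
    exact (he (a, _)).2 ⟨_, h5⟩

theorem nodup_iff_getD (F : List ℕ) :
    (∀ i < F.length, ∀ j < i, F.getD i 0 ≠ F.getD j 0) ↔ F.Nodup := by
  constructor
  · intro h1
    rw [List.nodup_iff_getElem?_ne_getElem?]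
    intro i j hij hj hc
    refine h1 j hj i hij ?_
    simp only [List.getD]
    rw [hc]
  · intro hnd i hi j hj hc
    have hj' : j < F.length := by omega
    simp only [List.getD, List.getElem?_eq_getElem hi, List.getElem?_eq_getElem hj',
      Option.getD_some] at hc
    have := (List.Nodup.getElem_inj_iff hnd).1 hc
    omega

theorem primrec_nodup : PrimrecPred fun F : List ℕ => F.Nodup := by
  have h : PrimrecPred fun F : List ℕ => ∀ i < F.length, ∀ j < i, F.getD i 0 ≠ F.getD j 0 := by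
    refine PP.all_lt (α := List ℕ) (f := fun F => F.length)
      (p := fun F i => ∀ j < i, F.getD i 0 ≠ F.getD j 0) ?_ Primrec.list_length
    refine PP.all_lt (α := List ℕ × ℕ) (f := fun x => x.2)
      (p := fun x j => x.1.getD x.2 0 ≠ x.1.getD j 0) ?_ Primrec.snd
    refine PrimrecPred.not (Primrec.eq.comp ?_ ?_)
    · exact (Primrec.list_getD 0).comp (Primrec.fst.comp Primrec.fst)
        (Primrec.snd.comp Primrec.fst)
    · exact (Primrec.list_getD 0).comp (Primrec.fst.comp Primrec.fst) Primrec.snd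
  exact h.of_eq fun F => nodup_iff_getD F

theorem tsum_pow_half : ∑' j : ℕ, (1 / 2 : ℝ≥0∞) ^ (j + 1) = 1 := by
  have : ∀ k : ℕ, (1 / 2 : ℝ≥0∞) ^ (k + 1) = (1 / 2) * (1 / 2) ^ k := by
    intro k; ring
  simp_rw [this]
  rw [ENNReal.tsum_mul_left, ENNReal.tsum_geometric, one_div, ENNReal.one_sub_inv_two, inv_inv]
  exact ENNReal.inv_mul_cancel (by norm_num) (by norm_num)

variable {t : (ℕ → Bool) → ℝ≥0∞}

/-- a computable sequence of numbers whose mass decreases too quickly is impossible -/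
theorem no_fast (ht : IsUnivE t) {f : ℕ → ℕ} (hf : Computable f) {a : ℕ}
    (h : ∀ j, mv t (f j) ≤ 2 ^ a / 2 ^ (2 * j)) : False := by
  have hR : S1 fun x : ℕ × ℕ × ℕ => ∃ j : ℕ, (x.2.1 = 1 ∧ x.2.2 = j + 1) ∧ f j = x.1 := by
    refine S1.ex (S1.and (S1.of_prim (PrimrecPred.and ?_ ?_)) ?_)
    · exact Primrec.eq.comp (Primrec.fst.comp (Primrec.snd.comp Primrec.fst)) (Primrec.const 1)
    · exact Primrec.eq.comp (Primrec.snd.comp (Primrec.snd.comp Primrec.fst))
        (Primrec.succ.comp Primrec.snd)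
    · have h1 : PrimrecPred fun y : ℕ × ℕ => y.1 = y.2 := Primrec.eq.comp Primrec.fst Primrec.snd
      exact (S1.of_prim h1).comp_computable (f := fun z : (ℕ × ℕ × ℕ) × ℕ => (f z.2, z.1.1))
        ((hf.comp Computable.snd).pair (Computable.fst.comp Computable.fst))
  have hν : ∀ n, (⨆ (p : ℕ) (q : ℕ) (_ : ∃ j : ℕ, (p = 1 ∧ q = j + 1) ∧ f j = n),
      (p : ℝ≥0∞) / 2 ^ q) ≤ ∑' j : ℕ, if f j = n then (1 / 2 : ℝ≥0∞) ^ (j + 1) else 0 := by
    intro n
    refine iSup_le fun p => iSup_le fun q => iSup_le ?_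
    rintro ⟨j, ⟨rfl, rfl⟩, hj⟩
    refine le_trans ?_ (ENNReal.le_tsum j)
    rw [if_pos hj, one_div, ← ENNReal.inv_pow]
    simp
  obtain ⟨C, hC0, hC⟩ := mv_univ ht hR (by
    refine lt_of_le_of_lt (ENNReal.tsum_le_tsum hν) ?_
    rw [ENNReal.tsum_comm]
    have : ∀ j : ℕ, ∑' n : ℕ, (if f j = n then (1 / 2 : ℝ≥0∞) ^ (j + 1) else 0) =
        (1 / 2) ^ (j + 1) := by
      intro j
      rw [tsum_eq_single (f j)]
      · simp
      · intro m hm
        rw [if_neg hm.symm]
    simp_rw [this]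
    rw [tsum_pow_half]
    simp)
  obtain ⟨j, hj⟩ := pow_unbounded_of_one_lt (C * 2 ^ (a + 1)) (by norm_num : (1 : ℝ) < 2)
  have h1 := hC (f j)
  have h2 : ((1 : ℕ) : ℝ≥0∞) / 2 ^ (j + 1) ≤ ENNReal.ofReal C * (2 ^ a / 2 ^ (2 * j)) := by
    refine le_trans ?_ (h1.trans (mul_le_mul' le_rfl (h j)))
    exact le_iSup_of_le 1 (le_iSup_of_le (j + 1) (le_iSup_of_le ⟨j, ⟨rfl, rfl⟩, rfl⟩ le_rfl))
  have h3 : ENNReal.ofReal (1 / 2 ^ (j + 1)) ≤ ENNReal.ofReal (C * (2 ^ a / 2 ^ (2 * j))) := by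
    have e1 : ENNReal.ofReal (1 / 2 ^ (j + 1)) = ((1 : ℕ) : ℝ≥0∞) / 2 ^ (j + 1) := by
      rw [ENNReal.ofReal_div_of_pos (by positivity), ENNReal.ofReal_one,
        ENNReal.ofReal_pow (by norm_num)]
      simp
    have e2 : ENNReal.ofReal (C * (2 ^ a / 2 ^ (2 * j))) = ENNReal.ofReal C * (2 ^ a / 2 ^ (2 * j)) := by
      rw [ENNReal.ofReal_mul hC0.le, ENNReal.ofReal_div_of_pos (by positivity),
        ENNReal.ofReal_pow (by norm_num), ENNReal.ofReal_pow (by norm_num)]
      simp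
    rw [e1, e2]
    exact h2
  rw [ENNReal.ofReal_le_ofReal_iff (by positivity)] at h3
  have h4 : (2 : ℝ) ^ (2 * j) = 2 ^ j * 2 ^ j := by rw [two_mul, pow_add]
  rw [h4, pow_succ, ← mul_div_assoc, div_le_div_iff₀ (by positivity) (by positivity)] at h3
  rw [pow_succ] at hj
  have h5 : (0 : ℝ) < 2 ^ j := by positivity
  nlinarith [mul_pos h5 h5, mul_lt_mul_of_pos_right hj h5]

/-- no computable enumeration of boundedly many candidates contains the logarithm of the mass -/
theorem berry (ht : IsUnivE t) {a : ℕ} {l : ℕ → ℕ} (hl : ∀ m, mv t m ≤ 2 ^ a / 2 ^ l m)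
    (hinf : ∀ b, ∃ m0, ∀ m ≥ m0, b ≤ l m) (B : ℕ) :
    ∀ L : ℕ × ℕ → Prop, S1 L → (∀ m, ∀ F : Finset ℕ, (∀ x ∈ F, L (m, x)) → F.card ≤ B) →
      ∀ m0, ¬ ∀ m ≥ m0, L (m, l m) := by
  induction B with
  | zero =>
    intro L hL hB m0 h
    have := hB m0 {l m0} (by simpa using h m0 le_rfl)
    simp at this
  | succ B ih =>
    intro L hL hB m0 h
    by_cases hc : ∃ b m1, ∀ m ≥ m1, ∀ F : Finset ℕ, (∀ x ∈ F, L (m, x) ∧ b ≤ x) → F.card ≤ B
    · obtain ⟨b, m1, hc⟩ := hc
      obtain ⟨m2, hm2⟩ := hinf b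
      refine ih (fun x => L x ∧ (b ≤ x.2 ∧ m1 ≤ x.1)) (hL.and (S1.of_prim (PrimrecPred.and ?_ ?_)))
        ?_ (max m0 (max m1 m2)) ?_
      · exact Primrec.nat_le.comp (Primrec.const b) Primrec.snd
      · exact Primrec.nat_le.comp (Primrec.const m1) Primrec.fst
      · intro m F hF
        by_cases hm : m1 ≤ m
        · exact hc m hm F fun x hx => ⟨(hF x hx).1, (hF x hx).2.1⟩
        · have : F = ∅ := by
            rw [Finset.eq_empty_iff_forall_notMem]
            intro x hx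
            exact hm (hF x hx).2.2
          rw [this]; simp
      · intro m hm
        have h1 : m0 ≤ m := (le_max_left _ _).trans hm
        have h2 : m1 ≤ m := ((le_max_left _ _).trans (le_max_right _ _)).trans hm
        have h3 : m2 ≤ m := ((le_max_right _ _).trans (le_max_right _ _)).trans hm
        exact ⟨h m h1, hm2 m h3, h2⟩
    · push Not at hc
      have hR : S1 fun x : ℕ × ℕ => ∃ F : List ℕ, (F.Nodup ∧ F.length = B + 1 ∧ m0 ≤ x.2) ∧
          ∀ y ∈ F, (L (x.2, y) ∧ 2 * x.1 ≤ y) := by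
        refine S1.ex (S1.and (S1.of_prim (PrimrecPred.and ?_ (PrimrecPred.and ?_ ?_)))
          (S1.all_mem (α := (ℕ × ℕ) × List ℕ) (p := fun x y => L (x.1.2, y) ∧ 2 * x.1.1 ≤ y)
            (S1.and (hL.comp (f := fun z : ((ℕ × ℕ) × List ℕ) × ℕ => (z.1.1.2, z.2)) ?_)
            (S1.of_prim ?_)) Primrec.snd))
        · exact primrec_nodup.comp Primrec.snd
        · exact Primrec.eq.comp (Primrec.list_length.comp Primrec.snd) (Primrec.const _)
        · exact Primrec.nat_le.comp (Primrec.const m0) (Primrec.snd.comp Primrec.fst)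
        · exact (Primrec.snd.comp (Primrec.fst.comp Primrec.fst)).pair Primrec.snd
        · exact Primrec.nat_le.comp (Primrec.nat_mul.comp (Primrec.const 2)
            (Primrec.fst.comp (Primrec.fst.comp Primrec.fst))) Primrec.snd
      obtain ⟨f, hf, hfR⟩ := exists_choice (R := fun j m => ∃ F : List ℕ,
          (F.Nodup ∧ F.length = B + 1 ∧ m0 ≤ m) ∧ ∀ y ∈ F, (L (m, y) ∧ 2 * j ≤ y)) hR (fun j => by
        obtain ⟨m, hm, F, hF, hcard⟩ := hc (2 * j) m0
        obtain ⟨F', hF', hcard'⟩ := Finset.exists_subset_card_eq (s := F) (n := B + 1) (by omega)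
        refine ⟨m, F'.toList, ⟨F'.nodup_toList, by simpa using hcard', hm⟩, fun y hy => ?_⟩
        exact hF y (hF' (by simpa using hy)))
      refine no_fast ht hf (a := a) fun j => ?_
      obtain ⟨F, ⟨h1, h2, h3⟩, h4⟩ := hfR j
      have h5 : l (f j) ∈ F := by
        by_contra hn
        have h6 := hB (f j) (insert (l (f j)) F.toFinset) (by
          intro x hx
          rw [Finset.mem_insert] at hx
          rcases hx with rfl | hx
          · exact h _ h3
          · exact (h4 x (by simpa using hx)).1)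
        rw [Finset.card_insert_of_notMem (by simpa using hn), List.toFinset_card_of_nodup h1, h2] at h6
        omega
      refine (hl (f j)).trans ?_
      have h7 := (h4 _ h5).2
      gcongr
      norm_num

end Pool.Agent.Helper227
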