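import Pool.Agent.Helper227.Meas

set_option autoImplicit false

namespace Pool.Agent.Helper227

open Encodable MeasureTheory
open scoped ENNReal

/-- `f` is lower semicomputable: it is the supremum of the nondecreasing sequence of step functions
`X ↦ G (X 0, ..., X (n-1)) / 2 ^ n` for some computable function `G`. -/
def LowerSemi (f : (ℕ → Bool) → ℝ≥0∞) : Prop :=
  ∃ G : List Bool → ℕ, Computable G ∧ (∀ (σ : List Bool) (b : Bool), 2 * G σ ≤ G (σ ++ [b])) ∧
    ∀ X : ℕ → Bool, f X = ⨆ n : ℕ, (G ((List.range n).map X) : ℝ≥0∞) / 2 ^ n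

theorem exists_dyadic {x y : ℝ≥0∞} (h : x < y) : ∃ p q : ℕ, x < (p : ℝ≥0∞) / 2 ^ q ∧
    (p : ℝ≥0∞) / 2 ^ q < y := by
  obtain ⟨u, hu1, hu2⟩ := ENNReal.lt_iff_exists_nnreal_btwn.1 h
  obtain ⟨v, hv1, hv2⟩ := ENNReal.lt_iff_exists_nnreal_btwn.1 hu2
  have huv : u < v := by exact_mod_cast hv1
  have hgap : (0 : ℝ) < v - u := by
    have : (u : ℝ) < v := by exact_mod_cast huv
    linarith
  obtain ⟨q, hq⟩ := exists_pow_lt_of_lt_one hgap (by norm_num : (1 / 2 : ℝ) < 1)
  have h2 : (0 : ℝ) < 2 ^ q := by positivity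
  refine ⟨⌊(u : ℝ) * 2 ^ q⌋₊ + 1, q, ?_, ?_⟩
  · refine lt_of_lt_of_le hu1 ?_
    rw [ENNReal.le_div_iff_mul_le (Or.inl (by positivity)) (Or.inl (by finiteness))]
    have h3 : (u : ℝ) * 2 ^ q ≤ (⌊(u : ℝ) * 2 ^ q⌋₊ + 1 : ℕ) := by
      push_cast
      exact (Nat.lt_floor_add_one _).le
    have h4 : (u * 2 ^ q : NNReal) ≤ (⌊(u : ℝ) * 2 ^ q⌋₊ + 1 : ℕ) := by
      rw [← NNReal.coe_le_coe]
      push_cast
      push_cast at h3
      exact h3
    exact_mod_cast h4
  · refine lt_of_le_of_lt ?_ hv2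
    refine ENNReal.div_le_of_le_mul ?_
    have h3 : ((⌊(u : ℝ) * 2 ^ q⌋₊ + 1 : ℕ) : ℝ) ≤ v * 2 ^ q := by
      push_cast
      have h5 : ((⌊(u : ℝ) * 2 ^ q⌋₊ : ℕ) : ℝ) ≤ u * 2 ^ q := Nat.floor_le (by positivity)
      have h6 : 1 ≤ (v - u : ℝ) * 2 ^ q := by
        have h7 : (1 / 2 : ℝ) ^ q * 2 ^ q = 1 := by
          rw [← mul_pow]; norm_num
        have h8 : (1 / 2 : ℝ) ^ q * 2 ^ q ≤ (v - u) * 2 ^ q := by gcongr
        linarith
      have h9 : (v - u : ℝ) * 2 ^ q = v * 2 ^ q - u * 2 ^ q := by ring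
      linarith
    have h4 : ((⌊(u : ℝ) * 2 ^ q⌋₊ + 1 : ℕ) : NNReal) ≤ v * 2 ^ q := by
      rw [← NNReal.coe_le_coe]
      push_cast
      push_cast at h3
      exact h3
    exact_mod_cast h4

theorem dyadic_lt_iff (p q p' q' : ℕ) : (p : ℝ≥0∞) / 2 ^ q < (p' : ℝ≥0∞) / 2 ^ q' ↔
    p * 2 ^ q' < p' * 2 ^ q := by
  rw [ENNReal.div_lt_iff (Or.inl (by positivity)) (Or.inl (by finiteness)), mul_comm,
    ← mul_div_assoc, ENNReal.lt_div_iff_mul_lt (Or.inl (by positivity)) (Or.inl (by finiteness))]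
  rw [mul_comm (2 ^ q : ℝ≥0∞)]
  norm_cast

theorem dyadic_le_iff (p q p' q' : ℕ) : (p : ℝ≥0∞) / 2 ^ q ≤ (p' : ℝ≥0∞) / 2 ^ q' ↔
    p * 2 ^ q' ≤ p' * 2 ^ q := by
  rw [← not_lt, ← not_lt, dyadic_lt_iff]

theorem LowerSemi.s1 {f : (ℕ → Bool) → ℝ≥0∞} (hf : LowerSemi f) :
    ∃ P : (ℕ × ℕ) → List Bool → Prop, S1 (fun x : (ℕ × ℕ) × List Bool => P x.1 x.2) ∧
      ∀ (p q : ℕ) (X : ℕ → Bool), (p : ℝ≥0∞) / 2 ^ q < f X ↔ ∃ t, P (p, q) (pre X t) := by
  obtain ⟨G, hG, hm, he⟩ := hf
  refine ⟨fun x σ => x.1 * 2 ^ σ.length < G σ * 2 ^ x.2, ?_, fun p q X => ?_⟩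
  · have h1 : PrimrecPred fun y : (ℕ × ℕ) × ℕ × ℕ => y.1.1 * 2 ^ y.2.1 < y.2.2 * 2 ^ y.1.2 := by
      refine Primrec.nat_lt.comp (Primrec.nat_mul.comp (Primrec.fst.comp Primrec.fst)
        (primrec_pow.comp (Primrec.const 2) (Primrec.fst.comp Primrec.snd)))
        (Primrec.nat_mul.comp (Primrec.snd.comp Primrec.snd)
          (primrec_pow.comp (Primrec.const 2) (Primrec.snd.comp Primrec.fst)))
    refine (S1.of_prim h1).comp_computable (f := fun x : (ℕ × ℕ) × List Bool =>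
      (x.1, x.2.length, G x.2)) ?_
    exact Computable.fst.pair ((Primrec.list_length.to_comp.comp Computable.snd).pair
      (hG.comp Computable.snd))
  · rw [he, lt_iSup_iff]
    refine exists_congr fun n => ?_
    rw [dyadic_lt_iff]
    simp [pre]

/-- monotonicity along initial segments -/
theorem step_mono {G : List Bool → ℕ} (hm : ∀ (σ : List Bool) (b : Bool), 2 * G σ ≤ G (σ ++ [b]))
    (X : ℕ → Bool) : Monotone fun n : ℕ => (G (pre X n) : ℝ≥0∞) / 2 ^ n := by
  refine monotone_nat_of_le_succ fun n => ?_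
  rw [dyadic_le_iff, pre_succ, pow_succ]
  have := hm (pre X n) (X n)
  calc G (pre X n) * (2 ^ n * 2) = (2 * G (pre X n)) * 2 ^ n := by ring
    _ ≤ G (pre X n ++ [X n]) * 2 ^ n := Nat.mul_le_mul_right _ this

theorem LowerSemi.measurable {f : (ℕ → Bool) → ℝ≥0∞} (hf : LowerSemi f) : Measurable f := by
  obtain ⟨G, hG, hm, he⟩ := hf
  have h1 : f = fun X => ⨆ n : ℕ, (G (pre X n) : ℝ≥0∞) / 2 ^ n := funext he
  rw [h1]
  refine Measurable.iSup fun n => ?_
  refine Measurable.div_const ?_ _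
  intro s _
  exact measurableSet_pre n (fun σ => (G σ : ℝ≥0∞) ∈ s)

/-- list of values of the enumerated pairs -/
def vals (Q : List Bool × ℕ × ℕ → ℕ → Prop) [DecidableRel Q] (τ : List Bool) : List ℕ :=
  (List.range (τ.length + 1)).flatMap fun j => (List.range (τ.length + 1)).flatMap fun q =>
    (List.range (τ.length + 1)).map fun p =>
      if Q (τ.take j, p, q) τ.length then p * 2 ^ (τ.length - q) else 0

theorem mem_vals {Q : List Bool × ℕ × ℕ → ℕ → Prop} [DecidableRel Q] {τ : List Bool} {v : ℕ} :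
    v ∈ vals Q τ ↔ ∃ j ≤ τ.length, ∃ q ≤ τ.length, ∃ p ≤ τ.length,
      (if Q (τ.take j, p, q) τ.length then p * 2 ^ (τ.length - q) else 0) = v := by
  simp only [vals, List.mem_flatMap, List.mem_range, List.mem_map, Nat.lt_succ_iff]

/-- maximum of a list -/
def lmax (L : List ℕ) : ℕ := L.foldr max 0

theorem le_lmax {L : List ℕ} {v : ℕ} (h : v ∈ L) : v ≤ lmax L := by
  induction L with
  | nil => cases h
  | cons a L ih =>
    simp only [lmax, List.foldr_cons]
    rcases List.mem_cons.1 h with rfl | h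
    · exact le_max_left _ _
    · exact (ih h).trans (le_max_right _ _)

theorem lmax_mem {L : List ℕ} : lmax L = 0 ∨ lmax L ∈ L := by
  induction L with
  | nil => left; rfl
  | cons a L ih =>
    simp only [lmax, List.foldr_cons] at ih ⊢
    rcases max_choice a (List.foldr max 0 L) with h | h
    · right; rw [h]; exact List.mem_cons_self
    · rw [h]
      rcases ih with h2 | h2
      · left; exact h2
      · right; exact List.mem_cons_of_mem _ h2

theorem lmax_le {L : List ℕ} {b : ℕ} (h : ∀ v ∈ L, v ≤ b) : lmax L ≤ b := by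
  rcases lmax_mem (L := L) with h2 | h2
  · rw [h2]; exact Nat.zero_le _
  · exact h _ h2

theorem lowerSemi_of_s1 {E : List Bool × ℕ × ℕ → Prop} (hE : S1 E) {f : (ℕ → Bool) → ℝ≥0∞}
    (hf : ∀ X, f X = ⨆ (n : ℕ) (p : ℕ) (q : ℕ) (_ : E (pre X n, p, q)), (p : ℝ≥0∞) / 2 ^ q) :
    LowerSemi f := by
  classical
  obtain ⟨Q, hQ, mQ, eQ⟩ := hE
  refine ⟨fun τ => lmax (vals Q τ), ?_, ?_, ?_⟩
  · refine Primrec.to_comp ?_
    have hl : Primrec fun τ : List Bool => τ.length + 1 := Primrec.succ.comp Primrec.list_length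
    have hv : Primrec fun τ : List Bool => vals Q τ := by
      unfold vals
      refine Primrec.list_flatMap (Primrec.list_range.comp hl) ?_
      refine Primrec.list_flatMap (α := List Bool × ℕ)
        (f := fun x => List.range (x.1.length + 1)) (g := fun (x : List Bool × ℕ) q =>
          (List.range (x.1.length + 1)).map fun p =>
            if Q (x.1.take x.2, p, q) x.1.length then p * 2 ^ (x.1.length - q) else 0)
        (Primrec.list_range.comp (hl.comp Primrec.fst)) ?_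
      refine Primrec.list_map (α := (List Bool × ℕ) × ℕ)
        (f := fun x => List.range (x.1.1.length + 1)) (g := fun (x : (List Bool × ℕ) × ℕ) p =>
            if Q (x.1.1.take x.1.2, p, x.2) x.1.1.length then p * 2 ^ (x.1.1.length - x.2) else 0)
        (Primrec.list_range.comp (hl.comp (Primrec.fst.comp Primrec.fst))) ?_
      have e1 : Primrec fun z : ((List Bool × ℕ) × ℕ) × ℕ => z.1.1.1 :=
        Primrec.fst.comp (Primrec.fst.comp Primrec.fst)
      refine Primrec.ite ?_ ?_ (Primrec.const 0)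
      · exact hQ.comp ((Primrec.list_take.comp (Primrec.snd.comp (Primrec.fst.comp Primrec.fst)) e1).pair
          (Primrec.snd.pair (Primrec.snd.comp Primrec.fst))) (Primrec.list_length.comp e1)
      · exact Primrec.nat_mul.comp Primrec.snd (primrec_pow.comp (Primrec.const 2)
          (Primrec.nat_sub.comp (Primrec.list_length.comp e1) (Primrec.snd.comp Primrec.fst)))
    unfold lmax
    refine Primrec.list_foldr (h := fun (_ : List Bool) (x : ℕ × ℕ) => max x.1 x.2) hv
      (Primrec.const 0) ?_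
    exact Primrec.nat_max.comp (Primrec.fst.comp Primrec.snd) (Primrec.snd.comp Primrec.snd)
  · intro σ b
    change 2 * lmax (vals Q σ) ≤ lmax (vals Q (σ ++ [b]))
    rcases lmax_mem (L := vals Q σ) with h | h
    · rw [h]; exact Nat.zero_le _
    · obtain ⟨j, hj, q, hq, p, hp, hv⟩ := mem_vals.1 h
      rw [← hv]
      split_ifs with h2
      · refine le_lmax (mem_vals.2 ⟨j, by simp; omega, q, by simp; omega, p, by simp; omega, ?_⟩)
        have e1 : (σ ++ [b]).take j = σ.take j := by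
          rw [List.take_append_of_le_length hj]
        rw [e1, if_pos (mQ _ _ _ (by simp) h2)]
        have e2 : (σ ++ [b]).length - q = (σ.length - q) + 1 := by simp; omega
        rw [e2, pow_succ]
        ring
      · omega
  · intro X
    rw [hf]
    apply le_antisymm
    · refine iSup_le fun n => iSup_le fun p => iSup_le fun q => iSup_le fun h => ?_
      obtain ⟨s, hs⟩ := (eQ _).1 h
      obtain ⟨N, hN⟩ : ∃ N, N = n + p + q + s := ⟨_, rfl⟩
      refine le_iSup_of_le N ?_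
      rw [dyadic_le_iff]
      have h1 : p * 2 ^ (N - q) ≤ lmax (vals Q (pre X N)) := by
        refine le_lmax (mem_vals.2 ⟨n, by simp; omega, q, by simp; omega, p, by simp; omega, ?_⟩)
        rw [take_pre X _ _ (by omega), length_pre, if_pos (mQ _ _ _ (by omega) hs)]
      change p * 2 ^ N ≤ lmax (vals Q (pre X N)) * 2 ^ q
      calc p * 2 ^ N = (p * 2 ^ (N - q)) * 2 ^ q := by
            rw [mul_assoc, ← pow_add]; congr 2; omega
        _ ≤ _ := Nat.mul_le_mul_right _ h1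
    · refine iSup_le fun n => ?_
      change ((lmax (vals Q (pre X n)) : ℕ) : ℝ≥0∞) / 2 ^ n ≤ _
      rcases lmax_mem (L := vals Q (pre X n)) with h | h
      · rw [h]; simp
      · obtain ⟨j, hj, q, hq, p, hp, hv⟩ := mem_vals.1 h
        rw [length_pre] at hj hq hp hv
        rw [← hv]
        split_ifs with h2
        · refine le_iSup_of_le j (le_iSup_of_le p (le_iSup_of_le q (le_iSup_of_le ?_ ?_)))
          · rw [take_pre X _ _ hj] at h2
            exact (eQ _).2 ⟨_, h2⟩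
          · rw [dyadic_le_iff, mul_assoc, ← pow_add]
            refine Nat.mul_le_mul_left _ (Nat.pow_le_pow_right (by norm_num) (by omega))
        · simp

/-- `f` is an expectation-bounded randomness test for the uniform measure. -/
def IsETest (f : (ℕ → Bool) → ℝ≥0∞) : Prop := LowerSemi f ∧ ∫⁻ X, f X ∂lam < ∞

/-- `f` is a probability-bounded randomness test for the uniform measure. -/
def IsPTest (f : (ℕ → Bool) → ℝ≥0∞) : Prop :=
  LowerSemi f ∧ ∀ c : ℝ, 0 < c → lam {X | ENNReal.ofReal c ≤ f X} ≤ ENNReal.ofReal (1 / c)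

/-- `t` is a universal (maximal up to a constant factor) expectation-bounded test. -/
def IsUnivE (t : (ℕ → Bool) → ℝ≥0∞) : Prop :=
  IsETest t ∧ ∀ f, IsETest f → ∃ C : ℝ, ∀ X, f X ≤ ENNReal.ofReal C * t X

/-- `t` is a universal (maximal up to a constant factor) probability-bounded test. -/
def IsUnivP (t : (ℕ → Bool) → ℝ≥0∞) : Prop :=
  IsPTest t ∧ ∀ f, IsPTest f → ∃ C : ℝ, ∀ X, f X ≤ ENNReal.ofReal C * t X

/-- `X` is Martin-Löf random (for the uniform measure). -/
def MLRandom (X : ℕ → Bool) : Prop :=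
  ∀ W : Set (ℕ × List Bool), (REPred fun x => x ∈ W) →
    (∀ n, lam (⋃ σ ∈ {σ : List Bool | (n, σ) ∈ W}, cyl σ) ≤ (1 / 2) ^ n) →
      ∃ n, ∀ σ : List Bool, (n, σ) ∈ W → X ∉ cyl σ

end Pool.Agent.Helper227
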