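import Pool.Agent.Helper227.TD.Lsc

set_option autoImplicit false

namespace Pool.Agent.Helper227

open Encodable MeasureTheory
open scoped ENNReal

theorem inter_open (P1 P2 : List Bool → Prop) :
    {X : ℕ → Bool | ∃ t, P1 (pre X t)} ∩ {X | ∃ t, P2 (pre X t)} =
    {X : ℕ → Bool | ∃ t, (∃ j < (pre X t).length + 1, P1 ((pre X t).take j)) ∧
      (∃ j < (pre X t).length + 1, P2 ((pre X t).take j))} := by
  ext X
  simp only [Set.mem_inter_iff, Set.mem_ofPred_eq, length_pre]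
  constructor
  · rintro ⟨⟨s, hs⟩, ⟨t, ht⟩⟩
    refine ⟨max s t, ⟨s, by omega, ?_⟩, ⟨t, by omega, ?_⟩⟩
    · rwa [take_pre X _ _ (le_max_left _ _)]
    · rwa [take_pre X _ _ (le_max_right _ _)]
  · rintro ⟨T, ⟨s, hs, h1⟩, ⟨t, ht, h2⟩⟩
    rw [take_pre X _ _ (by omega)] at h1 h2
    exact ⟨⟨s, h1⟩, ⟨t, h2⟩⟩

theorem cyl_open (σ : List Bool) : cyl σ = {X | ∃ t, pre X t = σ} := by
  ext X
  rw [mem_cyl_iff]
  constructor
  · intro h
    exact ⟨_, h⟩
  · rintro ⟨t, rfl⟩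
    simp

theorem s1_inter {α : Type*} [Primcodable α] {P1 P2 : α → List Bool → Prop}
    (h1 : S1 fun x : α × List Bool => P1 x.1 x.2) (h2 : S1 fun x : α × List Bool => P2 x.1 x.2) :
    S1 fun x : α × List Bool => (∃ j < x.2.length + 1, P1 x.1 (x.2.take j)) ∧
      (∃ j < x.2.length + 1, P2 x.1 (x.2.take j)) := by
  have key : ∀ {P : α → List Bool → Prop}, (S1 fun x : α × List Bool => P x.1 x.2) →
      S1 fun x : α × List Bool => (∃ j < x.2.length + 1, P x.1 (x.2.take j)) := by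
    intro P hP
    have h3 : S1 fun x : α × List Bool => ∃ j : ℕ, j < x.2.length + 1 ∧ P x.1 (x.2.take j) := by
      refine S1.ex (S1.and (S1.of_prim ?_) (hP.comp (f := fun z : (α × List Bool) × ℕ =>
        (z.1.1, z.1.2.take z.2)) ?_))
      · exact Primrec.nat_lt.comp Primrec.snd (Primrec.succ.comp (Primrec.list_length.comp
          (Primrec.snd.comp Primrec.fst)))
      · exact (Primrec.fst.comp Primrec.fst).pair (Primrec.list_take.comp Primrec.snd
          (Primrec.snd.comp Primrec.fst))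
    exact h3
  exact (key h1).and (key h2)

/-- the string `0^n 1` -/
def zs (n : ℕ) : List Bool := (List.range n).map (fun _ => false) ++ [true]

theorem zs_length (n : ℕ) : (zs n).length = n + 1 := by simp [zs]

theorem primrec_zs : Primrec zs :=
  Primrec.list_append.comp (Primrec.list_map Primrec.list_range (Primrec.const false))
    (Primrec.const [true])

theorem zs_disj_aux {n m : ℕ} (h : n < m) {X : ℕ → Bool} (h1 : X ∈ cyl (zs n)) (h2 : X ∈ cyl (zs m)) :
    False := by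
  have e1 := h1 n (by rw [zs_length]; omega)
  have e2 := h2 n (by rw [zs_length]; omega)
  simp only [zs] at e1 e2
  rw [List.getElem_append_right (by simp)] at e1
  rw [List.getElem_append_left (by simpa using h)] at e2
  simp at e1 e2
  rw [e1] at e2
  cases e2

theorem zs_inj {n m : ℕ} {X : ℕ → Bool} (h1 : X ∈ cyl (zs n)) (h2 : X ∈ cyl (zs m)) : n = m := by
  rcases Nat.lt_trichotomy n m with h | h | h
  · exact (zs_disj_aux h h1 h2).elim
  · exact h
  · exact (zs_disj_aux h h2 h1).elim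

theorem zs_disjoint : Pairwise (Function.onFun Disjoint fun n => cyl (zs n)) := by
  intro n m h
  rw [Function.onFun, Set.disjoint_left]
  intro X h1 h2
  exact h (zs_inj h1 h2)

theorem lam_zs (n : ℕ) : lam (cyl (zs n)) = (1 / 2) ^ (n + 1) := by rw [lam_cyl, zs_length]

variable (t : (ℕ → Bool) → ℝ≥0∞)

/-- more than half of `[0^n 1]` has test value above `p / 2 ^ q` -/
def QR (n p q : ℕ) : Prop :=
  ((1 : ℕ) : ℝ≥0∞) / ((2 ^ (n + 2) : ℕ) : ℝ≥0∞) < lam ({X | (p : ℝ≥0∞) / 2 ^ q < t X} ∩ cyl (zs n))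

/-- median of the test on `[0^n 1]` -/
noncomputable def qv (n : ℕ) : ℝ≥0∞ := ⨆ (p : ℕ) (q : ℕ) (_ : QR t n p q), (p : ℝ≥0∞) / 2 ^ q

/-- the universal semimeasure on the natural numbers given by the test -/
noncomputable def mv (n : ℕ) : ℝ≥0∞ := qv t n / 2 ^ (n + 1)

variable {t}

theorem s1_QR (ht : LowerSemi t) : S1 fun x : ℕ × ℕ × ℕ => QR t x.1 x.2.1 x.2.2 := by
  obtain ⟨P, hP, eP⟩ := ht.s1
  have h1 : S1 fun y : (ℕ × ℕ × ℕ) × List Bool => P y.1.2 y.2 :=
    hP.comp (f := fun y : (ℕ × ℕ × ℕ) × List Bool => (y.1.2, y.2))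
      ((Primrec.snd.comp Primrec.fst).pair Primrec.snd)
  have h2 : S1 fun y : (ℕ × ℕ × ℕ) × List Bool => y.2 = zs y.1.1 :=
    S1.of_prim (Primrec.eq.comp Primrec.snd (primrec_zs.comp (Primrec.fst.comp Primrec.fst)))
  have h3 := s1_measure_gt (P := fun (x : ℕ × ℕ × ℕ) (ζ : List Bool) =>
      (∃ j < ζ.length + 1, P x.2 (ζ.take j)) ∧ (∃ j < ζ.length + 1, ζ.take j = zs x.1))
    (s1_inter (P1 := fun x : ℕ × ℕ × ℕ => P x.2)
    (P2 := fun x ζ => ζ = zs x.1) h1 h2) (a := fun _ : ℕ × ℕ × ℕ => 1)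
    (b := fun x : ℕ × ℕ × ℕ => 2 ^ (x.1 + 2))
    (Primrec.const 1) (primrec_pow.comp (Primrec.const 2) (Primrec.nat_add.comp Primrec.fst
      (Primrec.const 2))) (fun x => by positivity)
  refine h3.of_eq fun x => ?_
  unfold QR
  rw [← inter_open (P x.2) (fun ζ => ζ = zs x.1), cyl_open]
  have e : {X : ℕ → Bool | (x.2.1 : ℝ≥0∞) / 2 ^ x.2.2 < t X} = {X | ∃ s, P x.2 (pre X s)} := by
    ext X
    exact eP _ _ _
  rw [e]

theorem lam_gt_qv (n : ℕ) : lam ({X | qv t n < t X} ∩ cyl (zs n)) ≤ 1 / 2 ^ (n + 2) := by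
  by_contra hc
  push Not at hc
  have hq : qv t n ≠ ∞ := by
    intro h
    have : {X | qv t n < t X} = ∅ := by
      ext X
      simp [h]
    rw [this, Set.empty_inter, measure_empty] at hc
    simp at hc
  have hu : {X | qv t n < t X} ∩ cyl (zs n) =
      ⋃ i : ℕ, ({X | qv t n + 1 / (i + 1 : ℕ) < t X} ∩ cyl (zs n)) := by
    rw [← Set.iUnion_inter]
    congr 1
    ext X
    simp only [Set.mem_ofPred_eq, Set.mem_iUnion]
    constructor
    · intro h
      obtain ⟨r, hr0, hr⟩ := ENNReal.lt_iff_exists_add_pos_lt.1 h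
      obtain ⟨i, hi⟩ := ENNReal.exists_inv_nat_lt (a := (r : ℝ≥0∞)) (by exact_mod_cast hr0.ne')
      refine ⟨i, lt_of_le_of_lt ?_ hr⟩
      gcongr
      refine le_trans ?_ hi.le
      rw [one_div]
      refine ENNReal.inv_le_inv.2 ?_
      exact_mod_cast Nat.le_succ i
    · rintro ⟨i, hi⟩
      exact lt_of_le_of_lt le_self_add hi
  rw [hu, Monotone.measure_iUnion] at hc
  · obtain ⟨i, hi⟩ := lt_iSup_iff.1 hc
    obtain ⟨p, q, h1, h2⟩ := exists_dyadic (x := qv t n) (y := qv t n + 1 / (i + 1 : ℕ))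
      (ENNReal.lt_add_right hq (by simp))
    have h3 : QR t n p q := by
      unfold QR
      refine lt_of_le_of_lt ?_ (lt_of_lt_of_le hi (measure_mono ?_))
      · simp
      · rintro X ⟨hX, hX2⟩
        exact ⟨h2.trans hX, hX2⟩
    have h4 : (p : ℝ≥0∞) / 2 ^ q ≤ qv t n :=
      le_iSup_of_le p (le_iSup_of_le q (le_iSup_of_le h3 le_rfl))
    exact absurd h1 (not_lt.2 h4)
  · intro i j hij X hX
    refine ⟨?_, hX.2⟩
    have h5 : qv t n + 1 / (i + 1 : ℕ) < t X := hX.1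
    refine lt_of_le_of_lt ?_ h5
    gcongr

theorem mv_le (ht : Measurable t) (n : ℕ) : mv t n ≤ 2 * ∫⁻ X in cyl (zs n), t X ∂lam := by
  unfold mv
  refine ENNReal.div_le_of_le_mul ?_
  unfold qv
  refine iSup_le fun p => iSup_le fun q => iSup_le fun h => ?_
  have h1 : (p : ℝ≥0∞) / 2 ^ q * lam ({X | (p : ℝ≥0∞) / 2 ^ q < t X} ∩ cyl (zs n)) ≤
      ∫⁻ X in cyl (zs n), t X ∂lam := by
    have h2 := mul_meas_ge_le_lintegral (μ := lam.restrict (cyl (zs n))) ht ((p : ℝ≥0∞) / 2 ^ q)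
    refine le_trans ?_ h2
    refine mul_le_mul' le_rfl ?_
    rw [Measure.restrict_apply (measurableSet_le measurable_const ht)]
    refine measure_mono fun X hX => ⟨?_, hX.2⟩
    have h5 : (p : ℝ≥0∞) / 2 ^ q < t X := hX.1
    exact h5.le
  have h3 : (p : ℝ≥0∞) / 2 ^ q * (1 / 2 ^ (n + 2)) ≤ ∫⁻ X in cyl (zs n), t X ∂lam := by
    refine le_trans ?_ h1
    gcongr
    have := h.le
    simpa using this
  have h4 : (2 : ℝ≥0∞) ^ (n + 2) ≠ 0 := by positivity
  have h5 : (2 : ℝ≥0∞) ^ (n + 2) ≠ ∞ := by finiteness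
  calc (p : ℝ≥0∞) / 2 ^ q = (p : ℝ≥0∞) / 2 ^ q * (1 / 2 ^ (n + 2)) * 2 ^ (n + 2) := by
        rw [mul_assoc, ENNReal.div_mul_cancel h4 h5, mul_one]
    _ ≤ (∫⁻ X in cyl (zs n), t X ∂lam) * 2 ^ (n + 2) := by gcongr
    _ = 2 * (∫⁻ X in cyl (zs n), t X ∂lam) * 2 ^ (n + 1) := by ring

theorem tsum_mv_lt (ht : IsETest t) : ∑' n, mv t n < ∞ := by
  have hm := ht.1.measurable
  have h1 : ∑' n, mv t n ≤ ∑' n, 2 * ∫⁻ X in cyl (zs n), t X ∂lam :=
    ENNReal.tsum_le_tsum fun n => mv_le hm n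
  rw [ENNReal.tsum_mul_left] at h1
  have h2 : ∑' n, ∫⁻ X in cyl (zs n), t X ∂lam ≤ ∫⁻ X, t X ∂lam := by
    rw [← lintegral_iUnion (fun n => measurableSet_cyl _) zs_disjoint]
    exact setLIntegral_le_lintegral _ _
  refine lt_of_le_of_lt (h1.trans (mul_le_mul_right h2 _)) ?_
  exact ENNReal.mul_lt_top (by simp) ht.2

theorem mv_univ (ht : IsUnivE t) {R : ℕ × ℕ × ℕ → Prop} (hR : S1 R)
    (hs : ∑' n : ℕ, (⨆ (p : ℕ) (q : ℕ) (_ : R (n, p, q)), (p : ℝ≥0∞) / 2 ^ q) < ∞) :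
    ∃ C : ℝ, 0 < C ∧ ∀ n : ℕ, (⨆ (p : ℕ) (q : ℕ) (_ : R (n, p, q)), (p : ℝ≥0∞) / 2 ^ q) ≤
      ENNReal.ofReal C * mv t n := by
  classical
  set ν : ℕ → ℝ≥0∞ := fun n => ⨆ (p : ℕ) (q : ℕ) (_ : R (n, p, q)), (p : ℝ≥0∞) / 2 ^ q with hν
  let f : (ℕ → Bool) → ℝ≥0∞ := fun X => ∑' n, (cyl (zs n)).indicator (fun _ => 2 ^ (n + 1) * ν n) X
  have hfv : ∀ n, ∀ X ∈ cyl (zs n), f X = 2 ^ (n + 1) * ν n := by
    intro n X hX
    simp only [f]
    rw [tsum_eq_single n]
    · rw [Set.indicator_of_mem hX]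
    · intro m hm
      rw [Set.indicator_of_notMem]
      exact fun h => hm (zs_inj h hX)
  have hf0 : ∀ X, (∀ n, X ∉ cyl (zs n)) → f X = 0 := by
    intro X hX
    simp only [f]
    rw [ENNReal.tsum_eq_zero]
    intro n
    rw [Set.indicator_of_notMem (hX n)]
  have hf : IsETest f := by
    constructor
    · refine lowerSemi_of_s1 (E := fun x => ∃ n p' : ℕ, (x.1 = zs n ∧ x.2.1 = p' * 2 ^ (n + 1)) ∧
        R (n, p', x.2.2)) ?_ ?_
      · refine S1.ex (S1.ex (S1.and (S1.of_prim (PrimrecPred.and ?_ ?_)) (hR.comp ?_)))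
        · exact Primrec.eq.comp (Primrec.fst.comp (Primrec.fst.comp Primrec.fst))
            (primrec_zs.comp (Primrec.snd.comp Primrec.fst))
        · exact Primrec.eq.comp (Primrec.fst.comp (Primrec.snd.comp (Primrec.fst.comp Primrec.fst)))
            (Primrec.nat_mul.comp Primrec.snd (primrec_pow.comp (Primrec.const 2)
              (Primrec.succ.comp (Primrec.snd.comp Primrec.fst))))
        · exact (Primrec.snd.comp Primrec.fst).pair (Primrec.snd.pair
            (Primrec.snd.comp (Primrec.snd.comp (Primrec.fst.comp Primrec.fst))))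
      · intro X
        by_cases hX : ∃ n, X ∈ cyl (zs n)
        · obtain ⟨n, hn⟩ := hX
          rw [hfv n X hn]
          apply le_antisymm
          · simp only [hν]
            rw [ENNReal.mul_iSup]
            refine iSup_le fun p => ?_
            rw [ENNReal.mul_iSup]
            refine iSup_le fun q => ?_
            rw [ENNReal.mul_iSup]
            refine iSup_le fun h => ?_
            refine le_iSup_of_le (n + 1) (le_iSup_of_le (p * 2 ^ (n + 1)) (le_iSup_of_le q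
              (le_iSup_of_le ⟨n, p, ⟨?_, rfl⟩, h⟩ ?_)))
            · have := mem_cyl_iff.1 hn
              rwa [zs_length] at this
            · push_cast
              rw [mul_comm, ENNReal.mul_div_right_comm]
          · refine iSup_le fun k => iSup_le fun p => iSup_le fun q => iSup_le fun h => ?_
            obtain ⟨m, p', ⟨h1, h2⟩, h3⟩ := h
            have hm : X ∈ cyl (zs m) := by
              rw [← h1]; exact mem_cyl_pre _ _
            have hmn : m = n := zs_inj hm hn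
            subst hmn
            simp only at h2 h3
            rw [h2]
            push_cast
            rw [ENNReal.mul_div_right_comm, mul_comm]
            gcongr
            exact le_iSup_of_le p' (le_iSup_of_le q (le_iSup_of_le h3 le_rfl))
        · push Not at hX
          rw [hf0 X hX]
          symm
          rw [← le_zero_iff]
          refine iSup_le fun k => iSup_le fun p => iSup_le fun q => iSup_le fun h => ?_
          obtain ⟨m, p', ⟨h1, h2⟩, h3⟩ := h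
          exact absurd (by rw [← h1]; exact mem_cyl_pre _ _) (hX m)
    · simp only [f]
      rw [lintegral_tsum (fun n => (measurable_const.indicator (measurableSet_cyl _)).aemeasurable)]
      refine lt_of_le_of_lt (le_of_eq ?_) hs
      refine tsum_congr fun n => ?_
      rw [lintegral_indicator_const (measurableSet_cyl _), lam_zs, mul_right_comm, ← mul_pow]
      have : (2 : ℝ≥0∞) * (1 / 2) = 1 := ENNReal.mul_div_cancel (by norm_num) (by norm_num)
      rw [this, one_pow, one_mul]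
  obtain ⟨C, hC⟩ := ht.2 f hf
  refine ⟨max C 1, by positivity, fun n => ?_⟩
  have hC1 : ENNReal.ofReal C ≤ ENNReal.ofReal (max C 1) := ENNReal.ofReal_le_ofReal (le_max_left _ _)
  have hCpos : ENNReal.ofReal (max C 1) ≠ 0 := by
    rw [Ne, ENNReal.ofReal_eq_zero, not_le]; positivity
  have hlow : 2 ^ (n + 1) * ν n / ENNReal.ofReal (max C 1) ≤ qv t n := by
    refine le_of_forall_lt fun x hx => ?_
    obtain ⟨p, q, h1, h2⟩ := exists_dyadic hx
    have h3 : QR t n p q := by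
      unfold QR
      have h4 : {X | (p : ℝ≥0∞) / 2 ^ q < t X} ∩ cyl (zs n) = cyl (zs n) := by
        refine Set.inter_eq_right.2 fun X hX => ?_
        refine lt_of_lt_of_le h2 ?_
        refine ENNReal.div_le_of_le_mul ?_
        rw [← hfv n X hX, mul_comm]
        exact (hC X).trans (by gcongr)
      rw [h4, lam_zs, one_div, ← ENNReal.inv_pow]
      push_cast
      rw [one_div, ENNReal.inv_lt_inv]
      exact_mod_cast Nat.pow_lt_pow_right (a := 2) (by norm_num) (by omega : n + 1 < n + 2)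
    exact lt_of_lt_of_le h1 (le_iSup_of_le p (le_iSup_of_le q (le_iSup_of_le h3 le_rfl)))
  unfold mv
  rw [ENNReal.div_le_iff_le_mul (Or.inl hCpos) (Or.inl (by simp))] at hlow
  rw [← mul_div_assoc, ENNReal.le_div_iff_mul_le (Or.inl (by positivity)) (Or.inl (by finiteness))]
  calc ν n * 2 ^ (n + 1) = 2 ^ (n + 1) * ν n := by ring
    _ ≤ _ := hlow
    _ = _ := by ring

theorem s1_mv (ht : LowerSemi t) : S1 fun x : ℕ × ℕ × ℕ => (x.2.1 : ℝ≥0∞) / 2 ^ x.2.2 < mv t x.1 := by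
  have h1 : S1 fun x : ℕ × ℕ × ℕ => ∃ p q : ℕ,
      (x.2.1 * 2 ^ (x.1 + 1) * 2 ^ q < p * 2 ^ x.2.2) ∧ QR t x.1 p q := by
    have e1 : Primrec fun z : ((ℕ × ℕ × ℕ) × ℕ) × ℕ => z.1.1 := Primrec.fst.comp Primrec.fst
    have e2 : Primrec fun z : ((ℕ × ℕ × ℕ) × ℕ) × ℕ =>
        z.1.1.2.1 * 2 ^ (z.1.1.1 + 1) * 2 ^ z.2 :=
      Primrec.nat_mul.comp (Primrec.nat_mul.comp (Primrec.fst.comp (Primrec.snd.comp e1))
        (primrec_pow.comp (Primrec.const 2) (Primrec.succ.comp (Primrec.fst.comp e1))))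
          (primrec_pow.comp (Primrec.const 2) Primrec.snd)
    have e3 : Primrec fun z : ((ℕ × ℕ × ℕ) × ℕ) × ℕ => z.1.2 * 2 ^ z.1.1.2.2 :=
      Primrec.nat_mul.comp (Primrec.snd.comp Primrec.fst) (primrec_pow.comp
        (Primrec.const 2) (Primrec.snd.comp (Primrec.snd.comp e1)))
    have h2 : PrimrecPred fun z : ((ℕ × ℕ × ℕ) × ℕ) × ℕ =>
        z.1.1.2.1 * 2 ^ (z.1.1.1 + 1) * 2 ^ z.2 < z.1.2 * 2 ^ z.1.1.2.2 :=
      Primrec.nat_lt.comp e2 e3
    have h3 : S1 fun z : ((ℕ × ℕ × ℕ) × ℕ) × ℕ => QR t z.1.1.1 z.1.2 z.2 :=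
      (s1_QR ht).comp (f := fun z : ((ℕ × ℕ × ℕ) × ℕ) × ℕ => (z.1.1.1, z.1.2, z.2))
        ((Primrec.fst.comp e1).pair ((Primrec.snd.comp Primrec.fst).pair Primrec.snd))
    exact S1.ex (S1.ex ((S1.of_prim h2).and h3))
  refine h1.of_eq fun x => ?_
  unfold mv
  rw [ENNReal.lt_div_iff_mul_lt (Or.inl (by positivity)) (Or.inl (by finiteness))]
  have e : (x.2.1 : ℝ≥0∞) / 2 ^ x.2.2 * 2 ^ (x.1 + 1) =
      ((x.2.1 * 2 ^ (x.1 + 1) : ℕ) : ℝ≥0∞) / 2 ^ x.2.2 := by
    push_cast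
    rw [ENNReal.mul_div_right_comm]
  rw [e]
  unfold qv
  simp only [lt_iSup_iff]
  refine exists_congr fun p => exists_congr fun q => ?_
  rw [dyadic_lt_iff]
  constructor
  · rintro ⟨h1, h2⟩; exact ⟨h2, h1⟩
  · rintro ⟨h1, h2⟩; exact ⟨h2, h1⟩

end Pool.Agent.Helper227
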