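import Pool.Agent.Helper227.TD.Sets

set_option autoImplicit false

namespace Pool.Agent.Helper227

open Encodable MeasureTheory
open scoped ENNReal

theorem tsum_tail (n : ℕ) : ∑' j : ℕ, (if n ≤ j then (1 / 2 : ℝ≥0∞) ^ (j + 1) else 0) ≤ (1 / 2) ^ n := by
  have h1 : ∀ j : ℕ, (if n ≤ j then (1 / 2 : ℝ≥0∞) ^ (j + 1) else 0) ≤
      ∑' i : ℕ, if j = n + i then (1 / 2 : ℝ≥0∞) ^ (n + i + 1) else 0 := by
    intro j
    split_ifs with h
    · refine le_trans ?_ (ENNReal.le_tsum (j - n))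
      rw [if_pos (by omega), show n + (j - n) + 1 = j + 1 by omega]
    · exact zero_le
  refine (ENNReal.tsum_le_tsum h1).trans ?_
  rw [ENNReal.tsum_comm, ← tsum_half_pow n]
  refine ENNReal.tsum_le_tsum fun i => ?_
  rw [tsum_eq_single (n + i)]
  · simp
  · intro j hj
    rw [if_neg hj]

section

variable {t : (ℕ → Bool) → ℝ≥0∞} (ht : IsUnivE t) {a : ℕ} {l : ℕ → ℕ}
  (hl1 : ∀ m, (2 : ℝ≥0∞) ^ a / 2 ^ (l m + 1) < mv t m)
  (hl2 : ∀ m, mv t m ≤ 2 ^ a / 2 ^ l m)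
  (hl3 : ∀ m j, (2 : ℝ≥0∞) ^ a / 2 ^ (j + 1) < mv t m → l m ≤ j)

include ht hl1 hl2 hl3

theorem push (b : ℕ) : ∃ e : ℕ, ∀ m, l m ≤ m + b → l (m + b - l m) ≤ l m + e := by
  classical
  have hR : S1 fun x : ℕ × ℕ × ℕ => ∃ j : ℕ, (x.2.1 = 1 ∧ x.2.2 = j + 1 ∧ b ≤ x.1 + j) ∧
      ((2 ^ a : ℕ) : ℝ≥0∞) / 2 ^ (j + 1) < mv t (x.1 + j - b) := by
    have e1 : PrimrecPred fun z : (ℕ × ℕ × ℕ) × ℕ =>
        z.1.2.1 = 1 ∧ z.1.2.2 = z.2 + 1 ∧ b ≤ z.1.1 + z.2 := by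
      refine PrimrecPred.and ?_ (PrimrecPred.and ?_ ?_)
      · exact Primrec.eq.comp (Primrec.fst.comp (Primrec.snd.comp Primrec.fst)) (Primrec.const 1)
      · exact Primrec.eq.comp (Primrec.snd.comp (Primrec.snd.comp Primrec.fst))
          (Primrec.succ.comp Primrec.snd)
      · exact Primrec.nat_le.comp (Primrec.const b) (Primrec.nat_add.comp
          (Primrec.fst.comp Primrec.fst) Primrec.snd)
    have e2 : S1 fun z : (ℕ × ℕ × ℕ) × ℕ =>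
        ((2 ^ a : ℕ) : ℝ≥0∞) / 2 ^ (z.2 + 1) < mv t (z.1.1 + z.2 - b) :=
      (s1_mv ht.1.1).comp (f := fun z : (ℕ × ℕ × ℕ) × ℕ => (z.1.1 + z.2 - b, 2 ^ a, z.2 + 1))
        ((Primrec.nat_sub.comp (Primrec.nat_add.comp (Primrec.fst.comp Primrec.fst) Primrec.snd)
          (Primrec.const b)).pair ((Primrec.const _).pair (Primrec.succ.comp Primrec.snd)))
    exact S1.ex ((S1.of_prim e1).and e2)
  have hν : ∀ x : ℕ, (⨆ (p : ℕ) (q : ℕ) (_ : ∃ j : ℕ, (p = 1 ∧ q = j + 1 ∧ b ≤ x + j) ∧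
      ((2 ^ a : ℕ) : ℝ≥0∞) / 2 ^ (j + 1) < mv t (x + j - b)), (p : ℝ≥0∞) / 2 ^ q) ≤
      ∑' m : ℕ, ∑' j : ℕ, if m + b = x + j ∧ l m ≤ j then (1 / 2 : ℝ≥0∞) ^ (j + 1) else 0 := by
    intro x
    refine iSup_le fun p => iSup_le fun q => iSup_le ?_
    rintro ⟨j, ⟨rfl, rfl, hb⟩, hj⟩
    refine le_trans ?_ (ENNReal.le_tsum (x + j - b))
    refine le_trans ?_ (ENNReal.le_tsum j)
    rw [if_pos ⟨by omega, hl3 _ _ (by push_cast at hj; exact hj)⟩, one_div, ← ENNReal.inv_pow]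
    simp
  obtain ⟨C, hC0, hC⟩ := mv_univ ht hR (by
    refine lt_of_le_of_lt (ENNReal.tsum_le_tsum hν) ?_
    rw [ENNReal.tsum_comm]
    refine lt_of_le_of_lt (ENNReal.tsum_le_tsum (g := fun m => 2 * mv t m) fun m => ?_) ?_
    · rw [ENNReal.tsum_comm]
      have h1 : ∀ j : ℕ, (∑' x : ℕ, if m + b = x + j ∧ l m ≤ j then (1 / 2 : ℝ≥0∞) ^ (j + 1) else 0) ≤
          if l m ≤ j then (1 / 2 : ℝ≥0∞) ^ (j + 1) else 0 := by
        intro j
        by_cases hx : ∃ x, m + b = x + j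
        · obtain ⟨x, hx⟩ := hx
          rw [tsum_eq_single x]
          · simp [hx]
          · intro y hy
            rw [if_neg]
            rintro ⟨h2, _⟩
            omega
        · have h2 : ∀ x : ℕ, (if m + b = x + j ∧ l m ≤ j then (1 / 2 : ℝ≥0∞) ^ (j + 1) else 0) = 0 := by
            intro x
            rw [if_neg]
            rintro ⟨h2, _⟩
            exact hx ⟨x, h2⟩
          simp_rw [h2]
          simp
      refine (ENNReal.tsum_le_tsum h1).trans ((tsum_tail (l m)).trans ?_)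
      have h3 : (1 / 2 : ℝ≥0∞) ^ (l m) = 2 * (1 / 2 ^ (l m + 1)) := by
        rw [one_div, ← ENNReal.inv_pow, pow_succ, one_div, ENNReal.mul_inv (Or.inl (by positivity))
          (Or.inl (by finiteness)), mul_comm, mul_assoc, ENNReal.inv_mul_cancel (by norm_num)
          (by norm_num), mul_one]
      rw [h3]
      refine mul_le_mul' le_rfl (le_trans ?_ (hl1 m).le)
      gcongr
      exact_mod_cast Nat.one_le_two_pow
    · rw [ENNReal.tsum_mul_left]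
      exact ENNReal.mul_lt_top (by simp) (tsum_mv_lt ht.1))
  obtain ⟨e, he⟩ := ennreal_le_two_pow (x := ENNReal.ofReal C) (by simp)
  refine ⟨e + a + 1, fun m hm => ?_⟩
  obtain ⟨x, hx⟩ : ∃ x, x = m + b - l m := ⟨_, rfl⟩
  rw [← hx]
  have h1 : ((1 : ℕ) : ℝ≥0∞) / 2 ^ (l m + 1) ≤ 2 ^ e * (2 ^ a / 2 ^ l x) := by
    refine le_trans ?_ ((hC x).trans (mul_le_mul' he (hl2 x)))
    refine le_iSup_of_le 1 (le_iSup_of_le (l m + 1) (le_iSup_of_le ⟨l m, ⟨rfl, rfl, ?_⟩, ?_⟩ le_rfl))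
    · simp only; omega
    · simp only
      rw [show x + l m - b = m by omega]
      push_cast
      exact hl1 m
  have h2 : (2 : ℝ≥0∞) ^ e * (2 ^ a / 2 ^ l x) = ((2 ^ (e + a) : ℕ) : ℝ≥0∞) / 2 ^ l x := by
    push_cast
    rw [pow_add, mul_div_assoc]
  rw [h2, dyadic_le_iff, one_mul, ← pow_add] at h1
  have h3 := (Nat.pow_le_pow_iff_right (by norm_num)).1 h1
  omega

end

end Pool.Agent.Helper227
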