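import Pool.Agent.Helper227.TD.AE

set_option autoImplicit false

namespace Pool.Agent.Helper227

open Encodable MeasureTheory
open scoped ENNReal

theorem ennreal_le_two_pow {x : ℝ≥0∞} (h : x ≠ ∞) : ∃ a : ℕ, x ≤ 2 ^ a := by
  obtain ⟨n, hn⟩ := ENNReal.exists_nat_gt h
  refine ⟨n, hn.le.trans ?_⟩
  exact_mod_cast (Nat.lt_two_pow_self (n := n)).le

section mass

variable {t : (ℕ → Bool) → ℝ≥0∞} (ht : IsUnivE t)

include ht

theorem exists_bound : ∃ a : ℕ, ∀ n, mv t n ≤ 2 ^ a := by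
  obtain ⟨a, ha⟩ := ennreal_le_two_pow (tsum_mv_lt ht.1).ne
  exact ⟨a, fun n => (ENNReal.le_tsum n).trans ha⟩

theorem mv_lower : ∃ e : ℕ, ∀ n, (1 : ℝ≥0∞) / 2 ^ (n + e) ≤ mv t n := by
  have hR : S1 fun x : ℕ × ℕ × ℕ => x.2.1 = 1 ∧ x.2.2 = x.1 + 1 := by
    refine S1.of_prim (PrimrecPred.and ?_ ?_)
    · exact Primrec.eq.comp (Primrec.fst.comp Primrec.snd) (Primrec.const 1)
    · exact Primrec.eq.comp (Primrec.snd.comp Primrec.snd) (Primrec.succ.comp Primrec.fst)
  obtain ⟨C, hC0, hC⟩ := mv_univ ht hR (by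
    refine lt_of_le_of_lt (ENNReal.tsum_le_tsum (g := fun j : ℕ => (1 / 2 : ℝ≥0∞) ^ (j + 1))
      fun n => ?_) ?_
    · refine iSup_le fun p => iSup_le fun q => iSup_le ?_
      rintro ⟨rfl, hq⟩
      simp only at hq
      rw [hq, one_div, ← ENNReal.inv_pow]
      simp
    · rw [tsum_pow_half]; simp)
  obtain ⟨e, he⟩ := ennreal_le_two_pow (x := ENNReal.ofReal C) (by simp)
  refine ⟨e + 1, fun n => ?_⟩
  have h1 : ((1 : ℕ) : ℝ≥0∞) / 2 ^ (n + 1) ≤ 2 ^ e * mv t n := by
    refine le_trans ?_ ((hC n).trans (mul_le_mul' he le_rfl))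
    exact le_iSup_of_le 1 (le_iSup_of_le (n + 1) (le_iSup_of_le ⟨rfl, rfl⟩ le_rfl))
  have e1 : (1 : ℝ≥0∞) / 2 ^ (n + (e + 1)) = ((1 : ℕ) : ℝ≥0∞) / 2 ^ (n + 1) / 2 ^ e := by
    rw [Nat.cast_one, div_eq_mul_inv, div_eq_mul_inv, div_eq_mul_inv, one_mul, one_mul,
      ← ENNReal.mul_inv (Or.inl (by positivity)) (Or.inl (by finiteness)), ← pow_add]
    congr 2
    omega
  rw [e1]
  refine ENNReal.div_le_of_le_mul ?_
  rwa [mul_comm]

theorem exists_lv {a : ℕ} (ha : ∀ n, mv t n ≤ 2 ^ a) :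
    ∃ l : ℕ → ℕ, (∀ m, (2 : ℝ≥0∞) ^ a / 2 ^ (l m + 1) < mv t m) ∧
      (∀ m, mv t m ≤ 2 ^ a / 2 ^ l m) ∧
      (∀ m j, (2 : ℝ≥0∞) ^ a / 2 ^ (j + 1) < mv t m → l m ≤ j) := by
  classical
  obtain ⟨e, he⟩ := mv_lower ht
  have h1 : ∀ m, ∃ j : ℕ, (2 : ℝ≥0∞) ^ a / 2 ^ (j + 1) < mv t m := by
    intro m
    refine ⟨a + m + e, lt_of_lt_of_le ?_ (he m)⟩
    have h2 : (2 : ℝ≥0∞) ^ a / 2 ^ (a + m + e + 1) = ((2 ^ a : ℕ) : ℝ≥0∞) / 2 ^ (a + m + e + 1) := by
      push_cast; rfl
    have h3 : (1 : ℝ≥0∞) / 2 ^ (m + e) = ((1 : ℕ) : ℝ≥0∞) / 2 ^ (m + e) := by simp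
    rw [h2, h3, dyadic_lt_iff, one_mul, ← pow_add]
    exact Nat.pow_lt_pow_right (by norm_num) (by omega)
  refine ⟨fun m => Nat.find (h1 m), fun m => Nat.find_spec (h1 m), fun m => ?_,
    fun m j hj => Nat.find_min' (h1 m) hj⟩
  change mv t m ≤ 2 ^ a / 2 ^ (Nat.find (h1 m))
  rcases hz : Nat.find (h1 m) with _ | j
  · simpa using ha m
  · have := Nat.find_min (h1 m) (m := j) (by omega)
    exact not_lt.1 this

theorem lv_inf {a : ℕ} {l : ℕ → ℕ} (hl : ∀ m, (2 : ℝ≥0∞) ^ a / 2 ^ (l m + 1) < mv t m) :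
    ∀ b, ∃ m0, ∀ m ≥ m0, b ≤ l m := by
  intro b
  have h1 := ENNReal.tendsto_atTop_zero_of_tsum_ne_top (tsum_mv_lt ht.1).ne
  have h2 : (0 : ℝ≥0∞) < 2 ^ a / 2 ^ b := ENNReal.div_pos (by positivity) (by finiteness)
  obtain ⟨m0, hm0⟩ := Filter.eventually_atTop.1 (h1.eventually_lt_const h2)
  refine ⟨m0, fun m hm => ?_⟩
  have h3 := (hl m).trans (hm0 m hm)
  have h4 : ∀ j : ℕ, (2 : ℝ≥0∞) ^ a / 2 ^ j = ((2 ^ a : ℕ) : ℝ≥0∞) / 2 ^ j := by
    intro j; push_cast; rfl
  rw [h4, h4, dyadic_lt_iff, ← pow_add, ← pow_add] at h3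
  have h5 := (Nat.pow_lt_pow_iff_right (by norm_num)).1 h3
  omega

end mass

/-- the string `0^k 1 0^j` -/
def az (k j : ℕ) : List Bool := zs k ++ (List.range j).map fun _ => false

theorem az_length (k j : ℕ) : (az k j).length = k + 1 + j := by simp [az, zs_length]

theorem primrec_az : Primrec₂ az :=
  Primrec.list_append.comp (primrec_zs.comp Primrec.fst)
    (Primrec.list_map (Primrec.list_range.comp Primrec.snd) (Primrec.const false))

theorem az_cyl_zs (k j : ℕ) : cyl (az k j) ⊆ cyl (zs k) := cyl_subset (List.prefix_append _ _)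

theorem az_cyl {k i j : ℕ} (h : i ≤ j) : cyl (az k j) ⊆ cyl (az k i) := by
  refine cyl_subset ?_
  unfold az
  refine (List.prefix_append_right_inj _).2 ?_
  obtain ⟨d, rfl⟩ := Nat.exists_eq_add_of_le h
  rw [List.range_add, List.map_append]
  exact List.prefix_append _ _

section sets

variable {t : (ℕ → Bool) → ℝ≥0∞} (ht : IsUnivE t) {a : ℕ} {l : ℕ → ℕ}
  (hl1 : ∀ m, (2 : ℝ≥0∞) ^ a / 2 ^ (l m + 1) < mv t m)
  (hl2 : ∀ m, mv t m ≤ 2 ^ a / 2 ^ l m)
  (hl3 : ∀ m j, (2 : ℝ≥0∞) ^ a / 2 ^ (j + 1) < mv t m → l m ≤ j)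

include ht hl1 hl3

/-- the sets `A k` carry large expectation-bounded deficiency -/
theorem exists_C3 : ∃ C : ℝ, 0 < C ∧ ∀ k, ∀ X ∈ cyl (az k (l k)), (2 : ℝ≥0∞) ^ k ≤ ENNReal.ofReal C * t X := by
  classical
  let f : (ℕ → Bool) → ℝ≥0∞ := fun X => ∑' k, (cyl (az k (l k))).indicator (fun _ => (2 : ℝ≥0∞) ^ k) X
  have hfv : ∀ k, ∀ X ∈ cyl (az k (l k)), f X = 2 ^ k := by
    intro k X hX
    simp only [f]
    rw [tsum_eq_single k]
    · rw [Set.indicator_of_mem hX]
    · intro m hm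
      rw [Set.indicator_of_notMem]
      exact fun h => hm (zs_inj (az_cyl_zs _ _ h) (az_cyl_zs _ _ hX))
  have hf : IsETest f := by
    constructor
    · refine lowerSemi_of_s1 (E := fun x => ∃ k j : ℕ, (x.1 = az k j ∧ x.2.1 = 2 ^ k ∧ x.2.2 = 0) ∧
        ((2 ^ a : ℕ) : ℝ≥0∞) / 2 ^ (j + 1) < mv t k) ?_ ?_
      · have e1 : PrimrecPred fun z : ((List Bool × ℕ × ℕ) × ℕ) × ℕ =>
            z.1.1.1 = az z.1.2 z.2 ∧ z.1.1.2.1 = 2 ^ z.1.2 ∧ z.1.1.2.2 = 0 := by
          refine PrimrecPred.and ?_ (PrimrecPred.and ?_ ?_)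
          · exact Primrec.eq.comp (Primrec.fst.comp (Primrec.fst.comp Primrec.fst))
              (primrec_az.comp (Primrec.snd.comp Primrec.fst) Primrec.snd)
          · exact Primrec.eq.comp (Primrec.fst.comp (Primrec.snd.comp (Primrec.fst.comp Primrec.fst)))
              (primrec_pow.comp (Primrec.const 2) (Primrec.snd.comp Primrec.fst))
          · exact Primrec.eq.comp (Primrec.snd.comp (Primrec.snd.comp (Primrec.fst.comp Primrec.fst)))
              (Primrec.const 0)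
        have e2 : S1 fun z : ((List Bool × ℕ × ℕ) × ℕ) × ℕ =>
            ((2 ^ a : ℕ) : ℝ≥0∞) / 2 ^ (z.2 + 1) < mv t z.1.2 :=
          (s1_mv ht.1.1).comp (f := fun z : ((List Bool × ℕ × ℕ) × ℕ) × ℕ => (z.1.2, 2 ^ a, z.2 + 1))
            ((Primrec.snd.comp Primrec.fst).pair ((Primrec.const _).pair
              (Primrec.succ.comp Primrec.snd)))
        exact S1.ex (S1.ex ((S1.of_prim e1).and e2))
      · intro X
        by_cases hX : ∃ k, X ∈ cyl (az k (l k))
        · obtain ⟨k, hk⟩ := hX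
          rw [hfv k X hk]
          apply le_antisymm
          · refine le_iSup_of_le (az k (l k)).length (le_iSup_of_le (2 ^ k) (le_iSup_of_le 0
              (le_iSup_of_le ⟨k, l k, ⟨mem_cyl_iff.1 hk, rfl, rfl⟩, ?_⟩ ?_)))
            · push_cast; exact hl1 k
            · simp
          · refine iSup_le fun n => iSup_le fun p => iSup_le fun q => iSup_le fun h => ?_
            obtain ⟨k', j, ⟨h1, h2, h3⟩, h4⟩ := h
            have hm : X ∈ cyl (az k' j) := by rw [← h1]; exact mem_cyl_pre _ _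
            have hmn : k' = k := zs_inj (az_cyl_zs _ _ hm) (az_cyl_zs _ _ hk)
            subst hmn
            simp only at h2 h3
            rw [h2, h3]
            simp
        · push Not at hX
          have h0 : f X = 0 := by
            simp only [f]
            rw [ENNReal.tsum_eq_zero]
            intro n
            rw [Set.indicator_of_notMem (hX n)]
          rw [h0]
          symm
          rw [← le_zero_iff]
          refine iSup_le fun n => iSup_le fun p => iSup_le fun q => iSup_le fun h => ?_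
          obtain ⟨k', j, ⟨h1, h2, h3⟩, h4⟩ := h
          have hm : X ∈ cyl (az k' j) := by rw [← h1]; exact mem_cyl_pre _ _
          exact absurd (az_cyl (hl3 k' j (by push_cast at h4; exact h4)) hm) (hX k')
    · simp only [f]
      rw [lintegral_tsum (fun n => (measurable_const.indicator (measurableSet_cyl _)).aemeasurable)]
      refine lt_of_le_of_lt (ENNReal.tsum_le_tsum fun k => ?_) (tsum_mv_lt ht.1)
      rw [lintegral_indicator_const (measurableSet_cyl _), lam_cyl, az_length]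
      refine le_trans ?_ (hl1 k).le
      have e1 : (2 : ℝ≥0∞) ^ k * (1 / 2) ^ (k + 1 + l k) = 1 / 2 ^ (l k + 1) := by
        have h2 : (2 : ℝ≥0∞) * (1 / 2) = 1 := ENNReal.mul_div_cancel (by norm_num) (by norm_num)
        rw [show k + 1 + l k = k + (l k + 1) by omega, pow_add (1 / 2 : ℝ≥0∞), ← mul_assoc,
          ← mul_pow, h2, one_pow, one_mul, one_div, ← ENNReal.inv_pow, one_div]
      rw [e1]
      gcongr
      exact_mod_cast Nat.one_le_two_pow
  obtain ⟨C, hC⟩ := ht.2 f hf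
  refine ⟨max C 1, by positivity, fun k X hX => ?_⟩
  rw [← hfv k X hX]
  exact (hC X).trans (mul_le_mul' (ENNReal.ofReal_le_ofReal (le_max_left _ _)) le_rfl)

end sets

/-- the computable probability-bounded test `2^n` on `[0^n 1]` -/
theorem exists_C1 {p : (ℕ → Bool) → ℝ≥0∞} (hp : IsUnivP p) :
    ∃ C : ℝ, 0 < C ∧ ∀ k, ∀ X ∈ cyl (zs k), (2 : ℝ≥0∞) ^ k ≤ ENNReal.ofReal C * p X := by
  classical
  let f : (ℕ → Bool) → ℝ≥0∞ := fun X => ∑' k, (cyl (zs k)).indicator (fun _ => (2 : ℝ≥0∞) ^ k) X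
  have hfv : ∀ k, ∀ X ∈ cyl (zs k), f X = 2 ^ k := by
    intro k X hX
    simp only [f]
    rw [tsum_eq_single k]
    · rw [Set.indicator_of_mem hX]
    · intro m hm
      rw [Set.indicator_of_notMem]
      exact fun h => hm (zs_inj h hX)
  have hf0 : ∀ X, (∀ k, X ∉ cyl (zs k)) → f X = 0 := by
    intro X hX
    simp only [f]
    rw [ENNReal.tsum_eq_zero]
    intro n
    rw [Set.indicator_of_notMem (hX n)]
  have hf : IsPTest f := by
    constructor
    · refine lowerSemi_of_s1 (E := fun x => ∃ k : ℕ, x.1 = zs k ∧ x.2.1 = 2 ^ k ∧ x.2.2 = 0) ?_ ?_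
      · have e1 : PrimrecPred fun z : (List Bool × ℕ × ℕ) × ℕ =>
            z.1.1 = zs z.2 ∧ z.1.2.1 = 2 ^ z.2 ∧ z.1.2.2 = 0 := by
          refine PrimrecPred.and ?_ (PrimrecPred.and ?_ ?_)
          · exact Primrec.eq.comp (Primrec.fst.comp Primrec.fst) (primrec_zs.comp Primrec.snd)
          · exact Primrec.eq.comp (Primrec.fst.comp (Primrec.snd.comp Primrec.fst))
              (primrec_pow.comp (Primrec.const 2) Primrec.snd)
          · exact Primrec.eq.comp (Primrec.snd.comp (Primrec.snd.comp Primrec.fst)) (Primrec.const 0)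
        exact S1.ex (S1.of_prim e1)
      · intro X
        by_cases hX : ∃ k, X ∈ cyl (zs k)
        · obtain ⟨k, hk⟩ := hX
          rw [hfv k X hk]
          apply le_antisymm
          · refine le_iSup_of_le (zs k).length (le_iSup_of_le (2 ^ k) (le_iSup_of_le 0
              (le_iSup_of_le ⟨k, mem_cyl_iff.1 hk, rfl, rfl⟩ ?_)))
            simp
          · refine iSup_le fun n => iSup_le fun p => iSup_le fun q => iSup_le fun h => ?_
            obtain ⟨k', h1, h2, h3⟩ := h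
            have hm : X ∈ cyl (zs k') := by rw [← h1]; exact mem_cyl_pre _ _
            have hmn : k' = k := zs_inj hm hk
            subst hmn
            simp only at h2 h3
            rw [h2, h3]
            simp
        · push Not at hX
          rw [hf0 X hX]
          symm
          rw [← le_zero_iff]
          refine iSup_le fun n => iSup_le fun p => iSup_le fun q => iSup_le fun h => ?_
          obtain ⟨k', h1, h2, h3⟩ := h
          have hm : X ∈ cyl (zs k') := by rw [← h1]; exact mem_cyl_pre _ _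
          exact absurd hm (hX k')
    · intro c hc
      have hex : ∃ n : ℕ, ENNReal.ofReal c ≤ 2 ^ n := ennreal_le_two_pow (by simp)
      have hsub : {X | ENNReal.ofReal c ≤ f X} ⊆ ⋃ i : ℕ, cyl (zs (Nat.find hex + i)) := by
        intro X hX
        have hX : ENNReal.ofReal c ≤ f X := hX
        by_cases hX2 : ∃ k, X ∈ cyl (zs k)
        · obtain ⟨k, hk⟩ := hX2
          rw [hfv k X hk] at hX
          have hle := Nat.find_min' hex hX
          rw [Set.mem_iUnion]
          refine ⟨k - Nat.find hex, ?_⟩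
          rwa [show Nat.find hex + (k - Nat.find hex) = k by omega]
        · push Not at hX2
          rw [hf0 X hX2] at hX
          have := ENNReal.ofReal_pos.2 hc
          exact absurd hX (not_le.2 this)
      refine (measure_mono hsub).trans ((measure_iUnion_le _).trans ?_)
      simp_rw [lam_zs]
      have h1 : ∑' i : ℕ, (1 / 2 : ℝ≥0∞) ^ (Nat.find hex + i + 1) = (1 / 2) ^ (Nat.find hex) :=
        tsum_half_pow _
      rw [h1, one_div, ← ENNReal.inv_pow, one_div, ENNReal.ofReal_inv_of_pos hc]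
      exact ENNReal.inv_le_inv.2 (Nat.find_spec hex)
  obtain ⟨C, hC⟩ := hp.2 f hf
  refine ⟨max C 1, by positivity, fun k X hX => ?_⟩
  rw [← hfv k X hX]
  exact (hC X).trans (mul_le_mul' (ENNReal.ofReal_le_ofReal (le_max_left _ _)) le_rfl)

end Pool.Agent.Helper227
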