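import Pool.Agent.Helper227.TD.Lsc
import Pool.Agent.Helper227.Univ

set_option autoImplicit false

namespace Pool.Agent.Helper227

open Encodable MeasureTheory
open scoped ENNReal
open Nat.Partrec (Code)

/-- step function of level `n` -/
noncomputable def stepf (G : List Bool → ℕ) (n : ℕ) : (ℕ → Bool) → ℝ≥0∞ :=
  fun X => (G (pre X n) : ℝ≥0∞) / 2 ^ n

/-- the value of the code at `σ` computed in `n` steps -/
def cval (c : Code) (n : ℕ) (σ : List Bool) : ℕ := (c.evaln n (encode σ)).getD 0

/-- the code converges in `n` steps on all strings of length `j` -/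
def CDef (c : Code) (n j : ℕ) : Prop := ∀ σ ∈ allStr j, (c.evaln n (encode σ)).isSome = true

/-- monotone version of the values -/
def Mv (v : List Bool → ℕ) (σ : List Bool) : ℕ :=
  lmax ((List.range (σ.length + 1)).map fun i => v (σ.take i) * 2 ^ (σ.length - i))

theorem le_Mv {v : List Bool → ℕ} {σ : List Bool} {i : ℕ} (hi : i ≤ σ.length) :
    v (σ.take i) * 2 ^ (σ.length - i) ≤ Mv v σ :=
  le_lmax (List.mem_map.2 ⟨i, List.mem_range.2 (by omega), rfl⟩)

theorem Mv_le {v : List Bool → ℕ} {σ : List Bool} {b : ℕ}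
    (h : ∀ i ≤ σ.length, v (σ.take i) * 2 ^ (σ.length - i) ≤ b) : Mv v σ ≤ b := by
  refine lmax_le fun x hx => ?_
  obtain ⟨i, hi, rfl⟩ := List.mem_map.1 hx
  exact h i (by have := List.mem_range.1 hi; omega)

theorem Mv_take {v : List Bool → ℕ} {σ : List Bool} {i : ℕ} (hi : i ≤ σ.length) :
    Mv v (σ.take i) * 2 ^ (σ.length - i) ≤ Mv v σ := by
  have h1 : ∀ j ≤ i, v (σ.take j) * 2 ^ (i - j) * 2 ^ (σ.length - i) ≤ Mv v σ := by
    intro j hj
    rw [mul_assoc, ← pow_add]
    have h2 : i - j + (σ.length - i) = σ.length - j := by omega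
    rw [h2]
    exact le_Mv (by omega)
  have hl : (σ.take i).length = i := by rw [List.length_take]; omega
  have h3 : Mv v (σ.take i) ≤ Mv v σ / 2 ^ (σ.length - i) := by
    refine Mv_le fun j hj => ?_
    rw [hl] at hj ⊢
    rw [Nat.le_div_iff_mul_le (by positivity), List.take_take, min_eq_left hj]
    exact h1 j hj
  rwa [Nat.le_div_iff_mul_le (by positivity)] at h3

theorem Mv_eq {v : List Bool → ℕ} (hm : ∀ (σ : List Bool) (b : Bool), 2 * v σ ≤ v (σ ++ [b]))
    (σ : List Bool) : Mv v σ = v σ := by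
  have h1 : ∀ k i : ℕ, i + k = σ.length → v (σ.take i) * 2 ^ k ≤ v σ := by
    intro k
    induction k with
    | zero =>
      intro i hi
      rw [List.take_of_length_le (by omega)]
      simp
    | succ k ih =>
      intro i hi
      have h2 := ih (i + 1) (by omega)
      have h3 := hm (σ.take i) σ[i]
      rw [List.take_append_getElem (by omega)] at h3
      calc v (σ.take i) * 2 ^ (k + 1) = 2 * v (σ.take i) * 2 ^ k := by rw [pow_succ]; ring
        _ ≤ v (σ.take (i + 1)) * 2 ^ k := Nat.mul_le_mul_right _ h3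
        _ ≤ v σ := h2
  apply le_antisymm
  · exact Mv_le fun i hi => h1 _ i (by omega)
  · have := le_Mv (v := v) (σ := σ) (i := σ.length) le_rfl
    simpa using this

section

variable (Ok : ℕ → ℕ → List ℕ → Prop)

/-- level `j` is accepted at stage `n` -/
def GoodL (e n j : ℕ) : Prop :=
  ∀ i < j + 1, CDef (Denumerable.ofNat Code e.unpair.1) n i ∧
    Ok e.unpair.2 i ((allStr i).map (Mv (cval (Denumerable.ofNat Code e.unpair.1) n)))

open Classical in
/-- the trimmed enumeration -/
noncomputable def Tr (e : ℕ) (σ : List Bool) : ℕ :=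
  lmax ((List.range (σ.length + 1)).map fun j => if GoodL Ok e σ.length j then
    Mv (cval (Denumerable.ofNat Code e.unpair.1) σ.length) (σ.take j) * 2 ^ (σ.length - j) else 0)

variable {Ok}

theorem cval_mono {c : Code} {n n' : ℕ} (h : n ≤ n') {j : ℕ} (hj : CDef c n j) {σ : List Bool}
    (hσ : σ.length = j) : cval c n' σ = cval c n σ := by
  have h1 := hj σ (mem_allStr.2 hσ)
  rw [Option.isSome_iff_exists] at h1
  obtain ⟨y, hy⟩ := h1
  have h2 : c.evaln n' (encode σ) = some y :=
    Nat.Partrec.Code.evaln_mono h (Option.mem_def.2 hy)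
  simp [cval, hy, h2]

theorem CDef.mono {c : Code} {n n' : ℕ} (h : n ≤ n') {j : ℕ} (hj : CDef c n j) : CDef c n' j := by
  intro σ hσ
  have h1 := hj σ hσ
  rw [Option.isSome_iff_exists] at h1 ⊢
  obtain ⟨y, hy⟩ := h1
  exact ⟨y, Nat.Partrec.Code.evaln_mono h (Option.mem_def.2 hy)⟩

theorem Mv_mono {c : Code} {n n' : ℕ} (h : n ≤ n') {j : ℕ} (hj : ∀ i < j + 1, CDef c n i)
    {σ : List Bool} (hσ : σ.length ≤ j) : Mv (cval c n') σ = Mv (cval c n) σ := by
  unfold Mv
  congr 1
  refine List.map_congr_left fun i hi => ?_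
  rw [cval_mono h (hj i (by have := List.mem_range.1 hi; omega)) (by
    rw [List.length_take]; have := List.mem_range.1 hi; omega)]

theorem GoodL.mono {e n n' j : ℕ} (h : n ≤ n') (hj : GoodL Ok e n j) : GoodL Ok e n' j := by
  intro i hi
  refine ⟨(hj i hi).1.mono h, ?_⟩
  have h1 : (allStr i).map (Mv (cval (Denumerable.ofNat Code e.unpair.1) n')) =
      (allStr i).map (Mv (cval (Denumerable.ofNat Code e.unpair.1) n)) := by
    refine List.map_congr_left fun σ hσ => ?_
    exact Mv_mono h (j := j) (fun k hk => (hj k hk).1) (by rw [mem_allStr.1 hσ]; omega)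
  rw [h1]
  exact (hj i hi).2

theorem GoodL.le {e n j j' : ℕ} (h : j' ≤ j) (hj : GoodL Ok e n j) : GoodL Ok e n j' :=
  fun i hi => hj i (by omega)

theorem Tr_mono (e : ℕ) (σ : List Bool) (b : Bool) : 2 * Tr Ok e σ ≤ Tr Ok e (σ ++ [b]) := by
  classical
  unfold Tr
  rcases lmax_mem (L := (List.range (σ.length + 1)).map fun j => if GoodL Ok e σ.length j then
    Mv (cval (Denumerable.ofNat Code e.unpair.1) σ.length) (σ.take j) * 2 ^ (σ.length - j) else 0)
    with h | h
  · rw [h]; exact Nat.zero_le _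
  · obtain ⟨j, hj, h2⟩ := List.mem_map.1 h
    rw [← h2]
    have hj2 := List.mem_range.1 hj
    split_ifs with h3
    · refine le_lmax (List.mem_map.2 ⟨j, List.mem_range.2 (by simp; omega), ?_⟩)
      rw [if_pos (h3.mono (by simp)), List.take_append_of_le_length (by omega),
        Mv_mono (n := σ.length) (n' := (σ ++ [b]).length) (by simp) (j := j)
          (fun k hk => (h3 k hk).1) (by rw [List.length_take]; omega)]
      have h4 : (σ ++ [b]).length - j = (σ.length - j) + 1 := by simp; omega
      rw [h4, pow_succ]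
      ring
    · simp

/-- the trimmed step functions are zero or accepted -/
theorem Tr_cases (e n : ℕ) : (∀ X, Tr Ok e (pre X n) = 0) ∨ ∃ J ≤ n,
    Ok e.unpair.2 J ((allStr J).map (Mv (cval (Denumerable.ofNat Code e.unpair.1) n))) ∧
    ∀ X, Tr Ok e (pre X n) =
      Mv (cval (Denumerable.ofNat Code e.unpair.1) n) (pre X J) * 2 ^ (n - J) := by
  classical
  by_cases h : ∃ j ≤ n, GoodL Ok e n j
  · right
    obtain ⟨J, hJ, hJ2⟩ : ∃ m, (m ≤ n ∧ GoodL Ok e n m) ∧ ∀ k, k ≤ n → GoodL Ok e n k → k ≤ m := by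
      have := Nat.findGreatest_spec (P := fun k => GoodL Ok e n k)
        h.choose_spec.1 h.choose_spec.2
      refine ⟨_, ⟨Nat.findGreatest_le n, this⟩, fun k hk hk2 => Nat.le_findGreatest hk hk2⟩
    refine ⟨J, hJ.1, (hJ.2 J (by omega)).2, fun X => ?_⟩
    unfold Tr
    rw [length_pre]
    apply le_antisymm
    · refine lmax_le fun x hx => ?_
      obtain ⟨j, hj, rfl⟩ := List.mem_map.1 hx
      have hjn := List.mem_range.1 hj
      split_ifs with h3
      · have hjJ := hJ2 j (by omega) h3
        rw [take_pre X _ _ (by omega)]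
        have h4 := Mv_take (v := cval (Denumerable.ofNat Code e.unpair.1) n) (σ := pre X J) (i := j)
          (by rw [length_pre]; exact hjJ)
        rw [take_pre X _ _ hjJ, length_pre] at h4
        calc _ = (Mv (cval (Denumerable.ofNat Code e.unpair.1) n) (pre X j) * 2 ^ (J - j)) *
              2 ^ (n - J) := by
              rw [mul_assoc, ← pow_add]; congr 2; omega
          _ ≤ _ := Nat.mul_le_mul_right _ h4
      · exact Nat.zero_le _
    · refine le_lmax (List.mem_map.2 ⟨J, List.mem_range.2 (by omega), ?_⟩)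
      rw [if_pos hJ.2, take_pre X _ _ hJ.1]
  · left
    intro X
    push Not at h
    unfold Tr
    rw [length_pre]
    refine Nat.le_zero.1 (lmax_le fun x hx => ?_)
    obtain ⟨j, hj, rfl⟩ := List.mem_map.1 hx
    have hjn := List.mem_range.1 hj
    rw [if_neg (h j (by omega))]

theorem primrec_Tr (hOk : PrimrecPred fun x : ℕ × ℕ × List ℕ => Ok x.1 x.2.1 x.2.2) :
    Primrec fun x : ℕ × List Bool => Tr Ok x.1 x.2 := by
  classical
  have hcode : Primrec fun e : ℕ => Denumerable.ofNat Code e.unpair.1 :=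
    (Primrec.ofNat Code).comp (Primrec.fst.comp Primrec.unpair)
  have hev : Primrec fun x : (ℕ × ℕ) × List Bool =>
      (Denumerable.ofNat Code x.1.1.unpair.1).evaln x.1.2 (encode x.2) :=
    Nat.Partrec.Code.primrec_evaln.comp (((Primrec.snd.comp Primrec.fst).pair (hcode.comp
      (Primrec.fst.comp Primrec.fst))).pair (Primrec.encode.comp Primrec.snd))
  have hcv : Primrec fun x : (ℕ × ℕ) × List Bool =>
      cval (Denumerable.ofNat Code x.1.1.unpair.1) x.1.2 x.2 :=
    Primrec.option_getD.comp hev (Primrec.const 0)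
  have hMv : Primrec fun x : (ℕ × ℕ) × List Bool =>
      Mv (cval (Denumerable.ofNat Code x.1.1.unpair.1) x.1.2) x.2 := by
    unfold Mv lmax
    refine Primrec.list_foldr (α := (ℕ × ℕ) × List Bool)
      (f := fun x => (List.range (x.2.length + 1)).map fun i =>
        cval (Denumerable.ofNat Code x.1.1.unpair.1) x.1.2 (x.2.take i) * 2 ^ (x.2.length - i))
      (h := fun _ (x : ℕ × ℕ) => max x.1 x.2) ?_ (Primrec.const 0) ?_
    · refine Primrec.list_map (Primrec.list_range.comp (Primrec.succ.comp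
        (Primrec.list_length.comp Primrec.snd))) ?_
      refine Primrec.nat_mul.comp (hcv.comp (g := fun z : ((ℕ × ℕ) × List Bool) × ℕ =>
        (z.1.1, z.1.2.take z.2)) ?_) ?_
      · exact (Primrec.fst.comp Primrec.fst).pair (Primrec.list_take.comp Primrec.snd
          (Primrec.snd.comp Primrec.fst))
      · exact primrec_pow.comp (Primrec.const 2) (Primrec.nat_sub.comp (Primrec.list_length.comp
          (Primrec.snd.comp Primrec.fst)) Primrec.snd)
    · exact Primrec.nat_max.comp (Primrec.fst.comp Primrec.snd) (Primrec.snd.comp Primrec.snd)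
  have hCD : PrimrecPred fun x : (ℕ × ℕ) × ℕ =>
      CDef (Denumerable.ofNat Code x.1.1.unpair.1) x.1.2 x.2 := by
    unfold CDef
    refine PP.all_mem (α := (ℕ × ℕ) × ℕ) (f := fun x => allStr x.2)
      (p := fun x σ => ((Denumerable.ofNat Code x.1.1.unpair.1).evaln x.1.2
        (encode σ)).isSome = true) ?_ (primrec_allStr.comp Primrec.snd)
    refine Primrec.eq.comp (Primrec.option_isSome.comp (hev.comp
      (g := fun z : ((ℕ × ℕ) × ℕ) × List Bool => (z.1.1, z.2)) ?_)) (Primrec.const true)
    exact (Primrec.fst.comp Primrec.fst).pair Primrec.snd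
  have hmap : Primrec fun x : (ℕ × ℕ) × ℕ =>
      (allStr x.2).map (Mv (cval (Denumerable.ofNat Code x.1.1.unpair.1) x.1.2)) := by
    refine Primrec.list_map (α := (ℕ × ℕ) × ℕ) (f := fun x => allStr x.2)
      (g := fun x σ => Mv (cval (Denumerable.ofNat Code x.1.1.unpair.1) x.1.2) σ)
      (primrec_allStr.comp Primrec.snd) ?_
    refine hMv.comp (g := fun z : ((ℕ × ℕ) × ℕ) × List Bool => (z.1.1, z.2)) ?_
    exact (Primrec.fst.comp Primrec.fst).pair Primrec.snd
  have hG : PrimrecPred fun x : (ℕ × ℕ) × ℕ => GoodL Ok x.1.1 x.1.2 x.2 := by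
    unfold GoodL
    refine PP.all_lt (α := (ℕ × ℕ) × ℕ) (f := fun x => x.2 + 1)
      (p := fun x i => CDef (Denumerable.ofNat Code x.1.1.unpair.1) x.1.2 i ∧
        Ok x.1.1.unpair.2 i ((allStr i).map (Mv (cval (Denumerable.ofNat Code x.1.1.unpair.1)
          x.1.2)))) ?_ (Primrec.succ.comp Primrec.snd)
    have e1 : Primrec fun z : ((ℕ × ℕ) × ℕ) × ℕ => (z.1.1, z.2) :=
      (Primrec.fst.comp Primrec.fst).pair Primrec.snd
    refine PrimrecPred.and (hCD.comp e1) (hOk.comp (f := fun z : ((ℕ × ℕ) × ℕ) × ℕ =>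
      (z.1.1.1.unpair.2, z.2, (allStr z.2).map (Mv (cval
        (Denumerable.ofNat Code z.1.1.1.unpair.1) z.1.1.2)))) ?_)
    exact (Primrec.snd.comp (Primrec.unpair.comp (Primrec.fst.comp (Primrec.fst.comp
      Primrec.fst)))).pair (Primrec.snd.pair (hmap.comp e1))
  unfold Tr
  conv in lmax _ => unfold lmax
  refine Primrec.list_foldr (α := ℕ × List Bool)
    (f := fun x => (List.range (x.2.length + 1)).map fun j => if GoodL Ok x.1 x.2.length j then
    Mv (cval (Denumerable.ofNat Code x.1.unpair.1) x.2.length) (x.2.take j) *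
      2 ^ (x.2.length - j) else 0)
    (h := fun _ (x : ℕ × ℕ) => max x.1 x.2) ?_ (Primrec.const 0) ?_
  · refine Primrec.list_map (Primrec.list_range.comp (Primrec.succ.comp
      (Primrec.list_length.comp Primrec.snd))) ?_
    have e2 : Primrec fun z : (ℕ × List Bool) × ℕ => (z.1.1, z.1.2.length) :=
      (Primrec.fst.comp Primrec.fst).pair (Primrec.list_length.comp (Primrec.snd.comp Primrec.fst))
    refine Primrec.ite (hG.comp (f := fun z : (ℕ × List Bool) × ℕ => ((z.1.1, z.1.2.length), z.2))
      (e2.pair Primrec.snd)) (Primrec.nat_mul.comp (hMv.comp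
        (g := fun z : (ℕ × List Bool) × ℕ => ((z.1.1, z.1.2.length), z.1.2.take z.2)) ?_) ?_)
      (Primrec.const 0)
    · exact e2.pair (Primrec.list_take.comp Primrec.snd (Primrec.snd.comp Primrec.fst))
    · exact primrec_pow.comp (Primrec.const 2) (Primrec.nat_sub.comp (Primrec.list_length.comp
        (Primrec.snd.comp Primrec.fst)) Primrec.snd)
  · exact Primrec.nat_max.comp (Primrec.fst.comp Primrec.snd) (Primrec.snd.comp Primrec.snd)

/-- completeness of the trimmed enumerations -/
theorem exists_Tr {G : List Bool → ℕ} (hG : Computable G)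
    (hm : ∀ (σ : List Bool) (b : Bool), 2 * G σ ≤ G (σ ++ [b])) (k : ℕ)
    (hOk : ∀ i, Ok k i ((allStr i).map G)) :
    ∃ e : ℕ, e.unpair.2 = k ∧ ∀ X : ℕ → Bool,
      (⨆ n, stepf (Tr Ok e) n X) = ⨆ n, stepf G n X := by
  classical
  obtain ⟨c, hc⟩ := Nat.Partrec.Code.exists_code.1 hG
  have hc2 : ∀ σ : List Bool, c.eval (encode σ) = Part.some (G σ) := by
    intro σ
    rw [hc]
    simp
  refine ⟨Nat.pair (encode c) k, by simp, fun X => ?_⟩
  have e1 : Denumerable.ofNat Code (Nat.unpair (Nat.pair (encode c) k)).1 = c := by simp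
  have e2 : (Nat.unpair (Nat.pair (encode c) k)).2 = k := by simp
  have hval : ∀ n (σ : List Bool), (c.evaln n (encode σ)).isSome = true → cval c n σ = G σ := by
    intro n σ h
    obtain ⟨y, hy⟩ := Option.isSome_iff_exists.1 h
    have h1 := Nat.Partrec.Code.evaln_sound (Option.mem_def.2 hy)
    rw [hc2, Part.mem_some_iff] at h1
    simp [cval, hy, h1]
  have hMG : ∀ n j, (∀ i < j + 1, CDef c n i) → ∀ σ : List Bool, σ.length ≤ j →
      Mv (cval c n) σ = G σ := by
    intro n j hj σ hσ
    rw [← Mv_eq hm σ]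
    unfold Mv
    congr 1
    refine List.map_congr_left fun i hi => ?_
    have h1 := List.mem_range.1 hi
    rw [hval n (σ.take i) (hj i (by omega) _ (mem_allStr.2 (by rw [List.length_take]; omega)))]
  apply le_antisymm
  · refine iSup_le fun n => ?_
    unfold stepf
    have h1 : Tr Ok (Nat.pair (encode c) k) (pre X n) ≤ G (pre X n) := by
      unfold Tr
      rw [e1, length_pre]
      refine lmax_le fun x hx => ?_
      obtain ⟨j, hj, rfl⟩ := List.mem_map.1 hx
      have hjn := List.mem_range.1 hj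
      split_ifs with h3
      · rw [hMG n j (fun i hi => by have := (h3 i hi).1; rwa [e1] at this) _ (by
          rw [List.length_take, length_pre]; omega)]
        have h4 := le_Mv (v := G) (σ := pre X n) (i := j) (by rw [length_pre]; omega)
        rwa [Mv_eq hm, length_pre] at h4
      · exact Nat.zero_le _
    refine le_trans ?_ (le_iSup (fun n => (G (pre X n) : ℝ≥0∞) / 2 ^ n) n)
    gcongr
  · refine iSup_le fun j => ?_
    -- a stage at which levels up to `j` have converged
    have h1 : ∃ n, ∀ i < j + 1, CDef c n i := by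
      have h2 : ∀ L : List (List Bool), ∃ n, ∀ σ ∈ L, (c.evaln n (encode σ)).isSome = true := by
        intro L
        induction L with
        | nil => exact ⟨0, by simp⟩
        | cons a L ih =>
          obtain ⟨n, hn⟩ := ih
          have h3 : G a ∈ c.eval (encode a) := by rw [hc2]; exact Part.mem_some _
          obtain ⟨m, hm'⟩ := Nat.Partrec.Code.evaln_complete.1 h3
          refine ⟨max n m, fun σ hσ => ?_⟩
          rcases List.mem_cons.1 hσ with rfl | hσ
          · exact Option.isSome_iff_exists.2 ⟨_, Nat.Partrec.Code.evaln_mono (le_max_right _ _) hm'⟩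
          · obtain ⟨y, hy⟩ := Option.isSome_iff_exists.1 (hn σ hσ)
            exact Option.isSome_iff_exists.2 ⟨y, Nat.Partrec.Code.evaln_mono (le_max_left _ _)
              (Option.mem_def.2 hy)⟩
      obtain ⟨n, hn⟩ := h2 ((List.range (j + 1)).flatMap allStr)
      refine ⟨n, fun i hi σ hσ => hn σ (List.mem_flatMap.2 ⟨i, List.mem_range.2 hi, hσ⟩)⟩
    obtain ⟨n0, hn0⟩ := h1
    obtain ⟨n, hnj, hn⟩ : ∃ n, j ≤ n ∧ ∀ i < j + 1, CDef c n i :=
      ⟨max n0 j, le_max_right _ _, fun i hi => (hn0 i hi).mono (le_max_left _ _)⟩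
    have hgood : GoodL Ok (Nat.pair (encode c) k) n j := by
      intro i hi
      rw [e1, e2]
      refine ⟨hn i hi, ?_⟩
      have h4 : (allStr i).map (Mv (cval c n)) = (allStr i).map G :=
        List.map_congr_left fun σ hσ => hMG n j hn σ (by rw [mem_allStr.1 hσ]; omega)
      rw [h4]
      exact hOk i
    have h5 : G (pre X j) * 2 ^ (n - j) ≤ Tr Ok (Nat.pair (encode c) k) (pre X n) := by
      unfold Tr
      rw [length_pre]
      refine le_lmax (List.mem_map.2 ⟨j, List.mem_range.2 (by omega), ?_⟩)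
      rw [if_pos hgood, e1, take_pre X _ _ hnj, hMG n j hn _ (by simp)]
    refine le_trans ?_ (le_iSup (fun n => (Tr Ok (Nat.pair (encode c) k) (pre X n) : ℝ≥0∞) / 2 ^ n) n)
    unfold stepf
    rw [dyadic_le_iff]
    calc G (pre X j) * 2 ^ n = (G (pre X j) * 2 ^ (n - j)) * 2 ^ j := by
          rw [mul_assoc, ← pow_add]; congr 2; omega
      _ ≤ _ := Nat.mul_le_mul_right _ h5

end

end Pool.Agent.Helper227
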